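import Pool.Agent.H6.Shai.Defs

/-!
# Automatic continuity

Proof (paper).  Closed graph theorem (`LinearMap.continuous_of_seq_closed_graph`): let `a_n → 0`
in `A` (subtract the limit) and `φ a_n → T`; show `T = 0`.  If `T ≠ 0` choose `y` with `T y ≠ 0` and
`w : Y →L 𝕜` with `w (T y) = 1` (Hahn–Banach).  Let `B = w.smulRight y` (`z ↦ w z • y`); choose `b`
with `φ b = B`.  `T ∘ B = w.smulRight (T y) =: p` is an idempotent of rank one,
`c_n = b * a_n * b → 0` in `A`... better: `c_n = b' * (a_n * b) * b'`, where `φ b' = p`; then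
`φ c_n = p ∘ (φ a_n ∘ B) ∘ p = μ_n • p` with `μ_n = w (φ a_n (y)) * …` a scalar tending to `1`
(`p ∘ S ∘ p = w (S (T y)) • p`).  `c_n → 0`.  If `‖c_n‖ < |μ_n|` then `μ_n • 1 - c_n` is a unit of
`A` (Neumann series), so `φ (μ_n • 1 - c_n) = μ_n • (1 - p)` is invertible (`φ` maps `1` to `1`
because it is surjective), but `(1 - p) (T y) = 0`, `T y ≠ 0`: contradiction.  So
`|μ_n| ≤ ‖c_n‖ → 0`, contradicting `μ_n → 1`.
-/

open Filter Topology

namespace Pool.Agent.H6.Shai

theorem map_one_of_surjective {𝕜 : Type*} [RCLike 𝕜] {A : Type*} [NormedRing A]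
    [NormedAlgebra 𝕜 A] {Y : Type*} [NormedAddCommGroup Y] [NormedSpace 𝕜 Y]
    (φ : A →ₙₐ[𝕜] (Y →L[𝕜] Y)) (hφ : Function.Surjective φ) : φ 1 = 1 := by
  obtain ⟨a, ha⟩ := hφ 1
  have h : φ 1 * φ a = φ a := by rw [← map_mul, one_mul]
  rw [ha, mul_one] at h
  exact h

theorem continuous_of_surjective {𝕜 : Type*} [RCLike 𝕜] {A : Type*} [NormedRing A]
    [NormedAlgebra 𝕜 A] [CompleteSpace A] {Y : Type*} [NormedAddCommGroup Y] [NormedSpace 𝕜 Y]
    [CompleteSpace Y] (φ : A →ₙₐ[𝕜] (Y →L[𝕜] Y)) (hφ : Function.Surjective φ) :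
    Continuous φ := by
  have h1 := map_one_of_surjective φ hφ
  let g : A →ₗ[𝕜] (Y →L[𝕜] Y) :=
    { toFun := φ, map_add' := fun a b => map_add φ a b, map_smul' := fun c a => map_smul φ c a }
  have hg : ∀ a, g a = φ a := fun _ => rfl
  suffices Continuous g from this
  refine LinearMap.continuous_of_seq_closed_graph g ?_
  intro u x T' hu hT'
  by_contra hne
  have hT0 : T' - φ x ≠ 0 := sub_ne_zero.2 hne
  set T := T' - φ x with hT
  obtain ⟨z, hz⟩ : ∃ z, T z ≠ 0 := by
    by_contra hcon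
    push Not at hcon
    exact hT0 (ContinuousLinearMap.ext hcon)
  obtain ⟨w, hw⟩ := SeparatingDual.exists_eq_one (R := 𝕜) hz
  obtain ⟨b, hb⟩ := hφ (w.smulRight z)
  obtain ⟨b', hb'⟩ := hφ (w.smulRight (T z))
  have ha : Tendsto (fun n => u n - x) atTop (𝓝 0) := by
    simpa using hu.sub_const x
  have hφa : Tendsto (fun n => φ (u n - x)) atTop (𝓝 T) := by
    have : Tendsto (fun n => g (u n) - φ x) atTop (𝓝 (T' - φ x)) := hT'.sub_const (φ x)
    refine this.congr fun n => ?_
    rw [hg, map_sub]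
  have hμ : Tendsto (fun n => w (φ (u n - x) z)) atTop (𝓝 1) := by
    rw [← hw]
    have h2 : Tendsto (fun n => φ (u n - x) z) atTop (𝓝 (T z)) :=
      ((ContinuousLinearMap.apply 𝕜 Y z).continuous.tendsto T).comp hφa
    exact (w.continuous.tendsto (T z)).comp h2
  have hc : Tendsto (fun n => b' * ((u n - x) * b)) atTop (𝓝 0) := by
    have := (ha.mul_const b).const_mul b'
    simpa using this
  have hev : ∀ᶠ n in atTop, ‖b' * ((u n - x) * b)‖ < ‖w (φ (u n - x) z)‖ := by
    have e1 : ∀ᶠ n in atTop, ‖b' * ((u n - x) * b)‖ < 1 / 2 := by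
      have := hc.norm
      rw [norm_zero] at this
      exact this.eventually (gt_mem_nhds (by norm_num))
    have e2 : ∀ᶠ n in atTop, 1 / 2 < ‖w (φ (u n - x) z)‖ := by
      have := hμ.norm
      rw [norm_one] at this
      exact this.eventually (lt_mem_nhds (by norm_num))
    filter_upwards [e1, e2] with n h1 h2
    exact h1.trans h2
  obtain ⟨n, hn⟩ := hev.exists
  set μ := w (φ (u n - x) z) with hμd
  set c := b' * ((u n - x) * b) with hcd
  have hμ0 : μ ≠ 0 := by
    intro h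
    rw [h, norm_zero] at hn
    exact absurd hn (not_lt.2 (norm_nonneg _))
  have hφc : φ c = μ • (w.smulRight (T z)) := by
    rw [hcd, map_mul, map_mul, hb, hb']
    ext v
    simp only [ContinuousLinearMap.mul_apply, ContinuousLinearMap.smulRight_apply, map_smul,
      smul_apply, smul_eq_mul, hμd]
    rw [smul_comm]
  have hlt : ‖μ⁻¹ • c‖ < 1 := by
    rw [norm_smul, norm_inv, inv_mul_lt_iff₀ (norm_pos_iff.2 hμ0), mul_one]
    exact hn
  obtain ⟨d, hd⟩ := (isUnit_one_sub_of_norm_lt_one hlt).exists_left_inv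
  have h3 : φ d * (1 - w.smulRight (T z)) = 1 := by
    have h5 : φ (d * (1 - μ⁻¹ • c)) = φ 1 := by rw [hd]
    rw [map_mul, map_sub, map_smul, hφc, smul_smul, inv_mul_cancel₀ hμ0, one_smul, h1] at h5
    exact h5
  have h4 := congrArg (fun S : Y →L[𝕜] Y => S (T z)) h3
  simp only [ContinuousLinearMap.mul_apply, sub_apply, ContinuousLinearMap.one_apply,
    ContinuousLinearMap.smulRight_apply, hw, one_smul, sub_self, map_zero] at h4
  exact hz h4.symm

end Pool.Agent.H6.Shai
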