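import Pool.Agent.H6.Shai.Defs

/-!
# Basic operators on `C(ℕ*)`

`XX 𝕜 = C(NU, 𝕜)`, `rho : ℓ_∞ → C(NU, 𝕜)` (limits along ultrafilters), `P D` multiplication by the
indicator of the clopen set `{t | D ∈ t}`, `V n` restriction to the `n`-th row of `ℕ × ℕ` (via
`Nat.pair`), `R` the diagonal copy operator, `M g` multiplication by a function constant on rows,
`E : ℓ_∞ → C(NU)` the extension constant on rows, `r u : C(NU) → ℓ_∞` evaluation at the copies
`un u n` of `u` in the rows.
-/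

open Filter Topology

namespace Pool.Agent.H6.Shai

variable {𝕜 : Type} [RCLike 𝕜]

/-- `C(ℕ*)` -/
abbrev XX (𝕜 : Type) [RCLike 𝕜] : Type := C(NU, 𝕜)

lemma exists_lim (f : LI 𝕜) (t : Ultrafilter ℕ) : ∃ c : 𝕜, Tendsto f t (𝓝 c) := by
  have hc : IsCompact (Metric.closedBall (0 : 𝕜) ‖f‖) := isCompact_closedBall _ _
  obtain ⟨c, _, hc'⟩ := hc.ultrafilter_le_nhds (t.map f) (by
    rw [le_principal_iff]
    refine Ultrafilter.mem_map.2 ?_
    filter_upwards with n
    simpa using f.norm_coe_le_norm n)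
  exact ⟨c, hc'⟩

/-- the limit of `f` along `t` -/
noncomputable def limAt (f : LI 𝕜) (t : Ultrafilter ℕ) : 𝕜 := (exists_lim f t).choose

lemma tendsto_limAt (f : LI 𝕜) (t : Ultrafilter ℕ) : Tendsto f t (𝓝 (limAt f t)) :=
  (exists_lim f t).choose_spec

lemma limAt_eq {f : LI 𝕜} {t : Ultrafilter ℕ} {c : 𝕜} (h : Tendsto f t (𝓝 c)) :
    limAt f t = c := tendsto_nhds_unique (tendsto_limAt f t) h

lemma continuous_limAt (f : LI 𝕜) : Continuous fun t : Ultrafilter ℕ => limAt f t := by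
  rw [continuous_iff_continuousAt]
  intro t
  rw [ContinuousAt, Metric.tendsto_nhds]
  intro ε hε
  have h1 : ∀ᶠ n in (t : Filter ℕ), dist (f n) (limAt f t) < ε / 2 :=
    (Metric.tendsto_nhds.1 (tendsto_limAt f t)) _ (by linarith)
  have h2 : {s : Ultrafilter ℕ | {n | dist (f n) (limAt f t) < ε / 2} ∈ s} ∈ 𝓝 t :=
    (ultrafilter_isOpen_basic _).mem_nhds h1
  filter_upwards [h2] with s hs
  have h3 : dist (limAt f s) (limAt f t) ≤ ε / 2 := by
    refine le_of_tendsto ((tendsto_limAt f s).dist tendsto_const_nhds) ?_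
    filter_upwards [hs] with n hn
    exact le_of_lt hn
  linarith

/-- the restriction of the extension of `f` to `ℕ*` -/
noncomputable def rho : LI 𝕜 →L[𝕜] XX 𝕜 :=
  LinearMap.mkContinuous
    { toFun := fun f => ⟨fun t => limAt f t.1, (continuous_limAt f).comp continuous_subtype_val⟩
      map_add' := by
        intro f g
        ext t
        exact limAt_eq ((tendsto_limAt f t.1).add (tendsto_limAt g t.1))
      map_smul' := by
        intro c f
        ext t
        exact limAt_eq ((tendsto_limAt f t.1).const_smul c) } 1 (by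
    intro f
    rw [one_mul]
    refine (ContinuousMap.norm_le _ (norm_nonneg _)).2 fun t => ?_
    refine le_of_tendsto (tendsto_limAt f t.1).norm ?_
    filter_upwards with n
    exact f.norm_coe_le_norm n)

lemma rho_apply (f : LI 𝕜) (t : NU) : rho f t = limAt f t.1 := rfl

lemma tendsto_rho (f : LI 𝕜) (t : NU) : Tendsto f t.1 (𝓝 (rho f t)) := tendsto_limAt f t.1

lemma rho_eq {f : LI 𝕜} {t : NU} {c : 𝕜} (h : Tendsto f t.1 (𝓝 c)) : rho f t = c := limAt_eq h

lemma norm_rho_le (f : LI 𝕜) : ‖rho f‖ ≤ ‖f‖ := by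
  refine (ContinuousMap.norm_le _ (norm_nonneg _)).2 fun t => ?_
  refine le_of_tendsto (tendsto_rho f t).norm ?_
  filter_upwards with n
  exact f.norm_coe_le_norm n

/-- surjectivity of `rho` (Tietze) -/
lemma rho_surj (x : XX 𝕜) : ∃ f : LI 𝕜, rho f = x ∧ ‖f‖ ≤ ‖x‖ := by
  have : CompactSpace {u : Ultrafilter ℕ | (u : Filter ℕ) ≤ Filter.cofinite} := compactSpace_NU
  obtain ⟨g, hg, hx⟩ := BoundedContinuousFunction.exists_norm_eq_domRestrict_eq isClosed_NU 𝕜
    (BoundedContinuousFunction.mkOfCompact x)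
  have hgx : ∀ t : NU, g t.1 = x t := fun t => by
    have := congrArg (fun k => k t) hx
    simpa using this
  refine ⟨BoundedContinuousFunction.ofNormedAddCommGroupDiscrete (fun n => g (pure n)) ‖g‖
    (fun n => g.norm_coe_le_norm _), ?_, ?_⟩
  · ext t
    refine rho_eq ?_
    rw [← hgx]
    exact (g.continuous.tendsto t.1).comp (Ultrafilter.tendsto_pure_self t.1)
  · refine (BoundedContinuousFunction.norm_le (norm_nonneg _)).2 fun n => ?_
    have h1 : ‖g‖ = ‖x‖ := hg.trans (BoundedContinuousFunction.norm_mkOfCompact x)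
    rw [← h1]
    exact g.norm_coe_le_norm _

/-- multiplication by the indicator of `{t | D ∈ t}` -/
noncomputable def ind (𝕜 : Type) [RCLike 𝕜] (D : Set ℕ) : XX 𝕜 :=
  ⟨Set.indicator {t : NU | D ∈ t.1} 1, by
    refine (continuous_const (y := (1 : 𝕜))).indicator (fun a ha => ?_)
    have : IsClopen {t : NU | D ∈ t.1} :=
      ⟨(ultrafilter_isClosed_basic D).preimage continuous_subtype_val,
        (ultrafilter_isOpen_basic D).preimage continuous_subtype_val⟩
    rw [this.frontier_eq] at ha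
    exact ha.elim⟩

open Classical in
lemma ind_apply (D : Set ℕ) (t : NU) : ind 𝕜 D t = if D ∈ t.1 then 1 else 0 := by
  simp only [ind, ContinuousMap.coe_mk, Set.indicator_apply, Pi.one_apply, Set.mem_ofPred_eq]

/-- multiplication operators -/
noncomputable def mulOp (m : XX 𝕜) : XX 𝕜 →L[𝕜] XX 𝕜 :=
  LinearMap.mkContinuous
    { toFun := fun x => m * x
      map_add' := fun x y => mul_add _ _ _
      map_smul' := fun c x => by simp } ‖m‖ (fun x => norm_mul_le _ _)

@[simp] lemma mulOp_apply (m x : XX 𝕜) (t : NU) : mulOp m x t = m t * x t := rfl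

/-- `P D` -/
noncomputable def P (D : Set ℕ) : XX 𝕜 →L[𝕜] XX 𝕜 := mulOp (ind 𝕜 D)

lemma P_apply_of_mem {D : Set ℕ} {t : NU} (h : D ∈ t.1) (x : XX 𝕜) : P D x t = x t := by
  classical
  rw [P, mulOp_apply, ind_apply, if_pos h, one_mul]

lemma P_apply_of_notMem {D : Set ℕ} {t : NU} (h : D ∉ t.1) (x : XX 𝕜) : P D x t = 0 := by
  classical
  rw [P, mulOp_apply, ind_apply, if_neg h, zero_mul]

lemma norm_P_apply_le (D : Set ℕ) (x : XX 𝕜) : ‖P D x‖ ≤ ‖x‖ := by
  refine (ContinuousMap.norm_le _ (norm_nonneg _)).2 fun t => ?_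
  by_cases h : D ∈ t.1
  · rw [P_apply_of_mem h]; exact x.norm_coe_le_norm t
  · rw [P_apply_of_notMem h, norm_zero]; exact norm_nonneg _

lemma norm_P_le (D : Set ℕ) : ‖(P D : XX 𝕜 →L[𝕜] XX 𝕜)‖ ≤ 1 :=
  ContinuousLinearMap.opNorm_le_bound _ zero_le_one fun x => by
    rw [one_mul]; exact norm_P_apply_le D x

lemma P_comp_P (C D : Set ℕ) : (P C : XX 𝕜 →L[𝕜] XX 𝕜) ∘L P D = P (C ∩ D) := by
  ext x t
  rw [ContinuousLinearMap.comp_apply]
  by_cases hC : C ∈ t.1
  · rw [P_apply_of_mem hC]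
    by_cases hD : D ∈ t.1
    · rw [P_apply_of_mem hD, P_apply_of_mem (inter_mem hC hD)]
    · rw [P_apply_of_notMem hD, P_apply_of_notMem
        (fun h => hD (mem_of_superset h Set.inter_subset_right))]
  · rw [P_apply_of_notMem hC, P_apply_of_notMem
      (fun h => hC (mem_of_superset h Set.inter_subset_left))]

lemma P_univ : (P Set.univ : XX 𝕜 →L[𝕜] XX 𝕜) = ContinuousLinearMap.id 𝕜 _ := by
  ext x t
  rw [P_apply_of_mem univ_mem]; rfl

lemma P_of_finite {D : Set ℕ} (h : D.Finite) : (P D : XX 𝕜 →L[𝕜] XX 𝕜) = 0 := by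
  ext x t
  rw [P_apply_of_notMem]
  · rfl
  · intro hD
    have : Dᶜ ∈ t.1 := t.2 (by simpa using h)
    exact (Ultrafilter.compl_mem_iff_notMem.1 this) hD

lemma P_union {C D : Set ℕ} (h : Disjoint C D) :
    (P (C ∪ D) : XX 𝕜 →L[𝕜] XX 𝕜) = P C + P D := by
  ext x t
  rw [add_apply, ContinuousMap.add_apply]
  by_cases hC : C ∈ t.1
  · have hD : D ∉ t.1 := fun hD => by
      have := inter_mem hC hD
      rw [Set.disjoint_iff_inter_eq_empty.1 h] at this
      exact t.1.empty_notMem this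
    rw [P_apply_of_mem (mem_of_superset hC Set.subset_union_left), P_apply_of_mem hC,
      P_apply_of_notMem hD, add_zero]
  · by_cases hD : D ∈ t.1
    · rw [P_apply_of_mem (mem_of_superset hD Set.subset_union_right), P_apply_of_notMem hC,
        P_apply_of_mem hD, zero_add]
    · have : C ∪ D ∉ t.1 := fun h' => (Ultrafilter.union_mem_iff.1 h').elim hC hD
      rw [P_apply_of_notMem this, P_apply_of_notMem hC, P_apply_of_notMem hD, add_zero]

lemma P_compl (C : Set ℕ) :
    (P C : XX 𝕜 →L[𝕜] XX 𝕜) + P Cᶜ = ContinuousLinearMap.id 𝕜 _ := by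
  rw [← P_union disjoint_compl_right, Set.union_compl_self, P_univ]

/-- almost equal sets -/
lemma P_congr {C D : Set ℕ} (h : (C \ D).Finite) (h' : (D \ C).Finite) :
    (P C : XX 𝕜 →L[𝕜] XX 𝕜) = P D := by
  have e1 : C = (C ∩ D) ∪ (C \ D) := by rw [Set.inter_union_sdiff]
  have e2 : D = (C ∩ D) ∪ (D \ C) := by rw [Set.inter_comm, Set.inter_union_sdiff]
  have d1 : Disjoint (C ∩ D) (C \ D) := Set.disjoint_left.2 fun a ha hb => hb.2 ha.2
  have d2 : Disjoint (C ∩ D) (D \ C) := Set.disjoint_left.2 fun a ha hb => hb.2 ha.1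
  rw [e1, P_union d1, P_of_finite h, add_zero]
  conv_rhs => rw [e2, P_union d2, P_of_finite h', add_zero]

/-- pushforward of nonprincipal ultrafilters under a finite-to-one map -/
noncomputable def push (h : ℕ → ℕ) (hh : Tendsto h cofinite cofinite) : C(NU, NU) :=
  ⟨fun t => ⟨t.1.map h, (map_mono t.2).trans hh⟩, by
    refine Continuous.subtype_mk ?_ _
    refine ultrafilterBasis_is_basis.continuous_iff.2 ?_
    rintro _ ⟨s, rfl⟩
    exact (ultrafilter_isOpen_basic (h ⁻¹' s)).preimage continuous_subtype_val⟩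

lemma mem_push {h : ℕ → ℕ} {hh : Tendsto h cofinite cofinite} {t : NU} {s : Set ℕ} :
    s ∈ (push h hh t).1 ↔ h ⁻¹' s ∈ t.1 := Iff.rfl

/-- composition operators -/
noncomputable def cmp (g : C(NU, NU)) : XX 𝕜 →L[𝕜] XX 𝕜 :=
  LinearMap.mkContinuous
    { toFun := fun x => x.comp g
      map_add' := fun x y => rfl
      map_smul' := fun c x => rfl } 1 (fun x => by
    rw [one_mul]
    exact (ContinuousMap.norm_le _ (norm_nonneg _)).2 fun t => x.norm_coe_le_norm (g t))

@[simp] lemma cmp_apply (g : C(NU, NU)) (x : XX 𝕜) (t : NU) : cmp g x t = x (g t) := rfl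

lemma norm_cmp_le (g : C(NU, NU)) : ‖(cmp g : XX 𝕜 →L[𝕜] XX 𝕜)‖ ≤ 1 :=
  ContinuousLinearMap.opNorm_le_bound _ zero_le_one fun x => by
    rw [one_mul]
    exact (ContinuousMap.norm_le _ (norm_nonneg _)).2 fun t => x.norm_coe_le_norm (g t)

lemma tendsto_of_injective {h : ℕ → ℕ} (hi : Function.Injective h) :
    Tendsto h cofinite cofinite := hi.tendsto_cofinite

lemma pair_injective (n : ℕ) : Function.Injective (Nat.pair n) := by
  intro a b h
  exact (Nat.pair_eq_pair.1 h).2

/-- the copy of `u` in the `n`-th row -/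
noncomputable def un (u : NU) (n : ℕ) : NU :=
  push (Nat.pair n) (tendsto_of_injective (pair_injective n)) u

/-- restriction to the `n`-th row -/
noncomputable def V (n : ℕ) : XX 𝕜 →L[𝕜] XX 𝕜 :=
  cmp (push (Nat.pair n) (tendsto_of_injective (pair_injective n)))

lemma norm_V_le (n : ℕ) : ‖(V n : XX 𝕜 →L[𝕜] XX 𝕜)‖ ≤ 1 := norm_cmp_le _

lemma V_comp_P (n : ℕ) (C : Set ℕ) :
    (V n : XX 𝕜 →L[𝕜] XX 𝕜) ∘L P C = P (Nat.pair n ⁻¹' C) ∘L V n := by
  ext x t
  rw [ContinuousLinearMap.comp_apply, ContinuousLinearMap.comp_apply, V, cmp_apply]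
  by_cases h : Nat.pair n ⁻¹' C ∈ t.1
  · rw [P_apply_of_mem h, P_apply_of_mem (mem_push.2 h), cmp_apply]
  · rw [P_apply_of_notMem h, P_apply_of_notMem (fun h' => h (mem_push.1 h'))]

/-- the diagonal map -/
def diagMap (k : ℕ) : ℕ := if (Nat.unpair k).1 ≤ (Nat.unpair k).2 then (Nat.unpair k).2 else k

lemma diagMap_pair {n m : ℕ} (h : n ≤ m) : diagMap (Nat.pair n m) = m := by
  simp [diagMap, h]

lemma tendsto_diagMap : Tendsto diagMap cofinite cofinite := by
  refine Tendsto.cofinite_of_finite_preimage_singleton fun k => ?_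
  refine ((Set.finite_Iic k).image (fun n => Nat.pair n k)).union (Set.finite_singleton k)
    |>.subset ?_
  intro j hj
  have hj' : diagMap j = k := hj
  unfold diagMap at hj'
  split_ifs at hj' with h
  · left
    refine ⟨(Nat.unpair j).1, ?_, ?_⟩
    · rw [Set.mem_Iic, ← hj']; exact h
    · simp only [← hj', Nat.pair_unpair]
  · right; exact hj'

/-- the diagonal copy operator -/
noncomputable def R : XX 𝕜 →L[𝕜] XX 𝕜 := cmp (push diagMap tendsto_diagMap)

/-- `a` on rows -/
noncomputable def rowFun (a : LI 𝕜) : LI 𝕜 :=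
  BoundedContinuousFunction.ofNormedAddCommGroupDiscrete (fun k => a (Nat.unpair k).1) ‖a‖
    (fun _ => a.norm_coe_le_norm _)

@[simp] lemma rowFun_apply (a : LI 𝕜) (k : ℕ) : rowFun a k = a (Nat.unpair k).1 := rfl

lemma norm_rowFun_le (a : LI 𝕜) : ‖rowFun a‖ ≤ ‖a‖ :=
  (BoundedContinuousFunction.norm_le (norm_nonneg _)).2 fun _ => a.norm_coe_le_norm _

/-- the extension operator constant on rows -/
noncomputable def E : LI 𝕜 →L[𝕜] XX 𝕜 :=
  LinearMap.mkContinuous
    { toFun := fun a => rho (rowFun a)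
      map_add' := fun a b => by rw [← map_add]; rfl
      map_smul' := fun c a => by rw [RingHom.id_apply, ← map_smul]; rfl } 1 (fun a => by
    rw [one_mul]
    exact (norm_rho_le _).trans (norm_rowFun_le a))

lemma E_apply (a : LI 𝕜) : E a = rho (rowFun a) := rfl

lemma norm_E_apply_le (a : LI 𝕜) : ‖E a‖ ≤ ‖a‖ := (norm_rho_le _).trans (norm_rowFun_le a)

lemma E_apply_push (a : LI 𝕜) (n : ℕ) (t : NU) :
    E a (push (Nat.pair n) (tendsto_of_injective (pair_injective n)) t) = a n := by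
  rw [E_apply]
  refine rho_eq ?_
  change Tendsto _ (map (Nat.pair n) (t.1 : Filter ℕ)) _
  rw [tendsto_map'_iff]
  have : (⇑(rowFun a) ∘ Nat.pair n) = fun _ => a n := by
    funext m
    simp
  rw [this]
  exact tendsto_const_nhds

lemma E_apply_un (a : LI 𝕜) (u : NU) (n : ℕ) : E a (un u n) = a n := E_apply_push a n u

/-- evaluation at the points `un u n` -/
noncomputable def r (u : NU) : XX 𝕜 →L[𝕜] LI 𝕜 :=
  LinearMap.mkContinuous
    { toFun := fun x => BoundedContinuousFunction.ofNormedAddCommGroupDiscrete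
        (fun n => x (un u n)) ‖x‖ (fun _ => x.norm_coe_le_norm _)
      map_add' := fun x y => rfl
      map_smul' := fun c x => rfl } 1 (fun x => by
    rw [one_mul]
    exact (BoundedContinuousFunction.norm_le (norm_nonneg _)).2 fun _ => x.norm_coe_le_norm _)

@[simp] lemma r_apply (u : NU) (x : XX 𝕜) (n : ℕ) : r u x n = x (un u n) := rfl

lemma norm_r_apply_le (u : NU) (x : XX 𝕜) : ‖r u x‖ ≤ ‖x‖ :=
  (BoundedContinuousFunction.norm_le (norm_nonneg _)).2 fun _ => x.norm_coe_le_norm _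

lemma r_comp_E (u : NU) : r u ∘L (E : LI 𝕜 →L[𝕜] XX 𝕜) = ContinuousLinearMap.id 𝕜 _ := by
  ext a n
  rw [ContinuousLinearMap.comp_apply, r_apply, E_apply_un]; rfl

/-- multiplication by functions constant on rows -/
noncomputable def M (g : LI 𝕜) : XX 𝕜 →L[𝕜] XX 𝕜 := mulOp (E g)

lemma V_comp_M (n : ℕ) (g : LI 𝕜) : V n ∘L M g = g n • (V n : XX 𝕜 →L[𝕜] XX 𝕜) := by
  ext x t
  rw [ContinuousLinearMap.comp_apply, V, cmp_apply, M, mulOp_apply, E_apply_push]
  rfl

lemma V_comp_R (n : ℕ) : V n ∘L R = ContinuousLinearMap.id 𝕜 (XX 𝕜) := by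
  ext x t
  rw [ContinuousLinearMap.comp_apply, V, cmp_apply, R, cmp_apply]
  congr 1
  apply Subtype.ext
  apply Ultrafilter.coe_injective
  change map diagMap (map (Nat.pair n) (t.1 : Filter ℕ)) = t.1
  rw [map_map]
  have h1 : (diagMap ∘ Nat.pair n) =ᶠ[(t.1 : Filter ℕ)] id := by
    have : {m | n ≤ m} ∈ (t.1 : Filter ℕ) := t.2 (by
      rw [mem_cofinite]
      refine (Set.finite_Iio n).subset fun m hm => ?_
      simpa using hm)
    filter_upwards [this] with m hm
    exact diagMap_pair hm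
  rw [map_congr h1, map_id]

lemma V_comp_M_comp_R (n : ℕ) (g : LI 𝕜) :
    V n ∘L (M g ∘L R) = g n • ContinuousLinearMap.id 𝕜 (XX 𝕜) := by
  rw [← ContinuousLinearMap.comp_assoc, V_comp_M, ContinuousLinearMap.smul_comp, V_comp_R]

lemma exists_NU {D : Set ℕ} (h : D.Infinite) : ∃ t : NU, D ∈ t.1 := by
  have : (cofinite ⊓ 𝓟 D : Filter ℕ).NeBot := h.cofinite_inf_principal_neBot
  refine ⟨⟨Ultrafilter.of (cofinite ⊓ 𝓟 D), (Ultrafilter.of_le _).trans inf_le_left⟩, ?_⟩
  exact (Ultrafilter.of_le (cofinite ⊓ 𝓟 D)) (mem_inf_of_right (mem_principal_self D))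

/-- points where the norm of `P D ∘ S` is almost attained -/
lemma exists_point_of_lt_norm {D : Set ℕ} (hD : D.Infinite) (S : XX 𝕜 →L[𝕜] XX 𝕜) {b : ℝ}
    (h : b < ‖P D ∘L S‖) : ∃ x : XX 𝕜, ‖x‖ ≤ 1 ∧ ∃ t : NU, D ∈ t.1 ∧ b < ‖S x t‖ := by
  rcases lt_or_ge b 0 with hb | hb
  · obtain ⟨t, ht⟩ := exists_NU hD
    exact ⟨0, by simp, t, ht, by simpa using hb⟩
  · obtain ⟨x, hx1, hx2⟩ := ContinuousLinearMap.exists_lt_apply_of_lt_opNorm _ h
    refine ⟨x, hx1.le, ?_⟩
    by_contra hcon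
    push Not at hcon
    refine absurd hx2 (not_lt.2 ?_)
    refine (ContinuousMap.norm_le _ hb).2 fun t => ?_
    rw [ContinuousLinearMap.comp_apply]
    by_cases ht : D ∈ t.1
    · rw [P_apply_of_mem ht]; exact hcon t ht
    · rw [P_apply_of_notMem ht, norm_zero]; exact hb

/-- `P D` factors the identity for infinite `D` -/
lemma exists_factor_P {D : Set ℕ} (hD : D.Infinite) :
    ∃ A B : XX 𝕜 →L[𝕜] XX 𝕜, B ∘L P D ∘L A = ContinuousLinearMap.id 𝕜 _ := by
  -- an injection `e` with range in `D` and a left inverse `g` of `e` with finite fibres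
  classical
  obtain ⟨e, he, heD⟩ : ∃ e : ℕ → ℕ, Function.Injective e ∧ ∀ n, e n ∈ D := by
    have := hD.to_subtype
    exact ⟨fun n => (Nat.Subtype.orderIsoOfNat D n : ℕ),
      Subtype.val_injective.comp (Nat.Subtype.orderIsoOfNat D).injective,
      fun n => (Nat.Subtype.orderIsoOfNat D n).2⟩
  set g : ℕ → ℕ := fun k => if h : ∃ n, e n = k then h.choose else k with hg
  have hge : ∀ n, g (e n) = n := fun n => by
    have h : ∃ m, e m = e n := ⟨n, rfl⟩
    rw [hg]
    simp only [h, dif_pos]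
    exact he h.choose_spec
  have hgt : Tendsto g cofinite cofinite := by
    refine Tendsto.cofinite_of_finite_preimage_singleton fun k => ?_
    refine ((Set.finite_singleton (e k)).union (Set.finite_singleton k)).subset ?_
    intro j hj
    have hj' : g j = k := hj
    by_cases h : ∃ n, e n = j
    · left
      obtain ⟨n, rfl⟩ := h
      rw [hge] at hj'
      rw [hj']; rfl
    · right
      rw [hg] at hj'
      simp only [h, dif_neg, not_false_eq_true] at hj'
      exact hj'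
  refine ⟨cmp (push g hgt), cmp (push e he.tendsto_cofinite), ?_⟩
  ext x t
  rw [ContinuousLinearMap.comp_apply, ContinuousLinearMap.comp_apply, cmp_apply,
    P_apply_of_mem, cmp_apply]
  · change _ = x t
    congr 1
    apply Subtype.ext
    apply Ultrafilter.coe_injective
    change map g (map e (t.1 : Filter ℕ)) = t.1
    rw [map_map]
    have : g ∘ e = id := funext hge
    rw [this, map_id]
  · rw [mem_push]
    exact univ_mem' heD

/-- operators with disjoint left supports -/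
lemma norm_sum_P_comp_le {ι : Type*} (s : Finset ι) (C : ι → Set ℕ)
    (hC : ∀ i ∈ s, ∀ j ∈ s, i ≠ j → Disjoint (C i) (C j)) (S : ι → (XX 𝕜 →L[𝕜] XX 𝕜)) (b : ℝ)
    (hb : 0 ≤ b) (hS : ∀ i ∈ s, ‖S i‖ ≤ b) : ‖∑ i ∈ s, P (C i) ∘L S i‖ ≤ b := by
  classical
  refine ContinuousLinearMap.opNorm_le_bound _ hb fun x => ?_
  refine (ContinuousMap.norm_le _ (mul_nonneg hb (norm_nonneg _))).2 fun t => ?_
  have h0 : (∑ i ∈ s, P (C i) ∘L S i) x t = ∑ i ∈ s, (P (C i) (S i x)) t := by
    rw [sum_apply, ContinuousMap.sum_apply]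
    rfl
  rw [h0]
  by_cases h : ∃ i ∈ s, C i ∈ t.1
  · obtain ⟨i, hi, hit⟩ := h
    rw [Finset.sum_eq_single i]
    · rw [P_apply_of_mem hit]
      calc ‖S i x t‖ ≤ ‖S i x‖ := (S i x).norm_coe_le_norm t
        _ ≤ ‖S i‖ * ‖x‖ := (S i).le_opNorm x
        _ ≤ b * ‖x‖ := mul_le_mul_of_nonneg_right (hS i hi) (norm_nonneg _)
    · intro j hj hji
      refine P_apply_of_notMem (fun hjt => ?_) _
      have := inter_mem hjt hit
      rw [Set.disjoint_iff_inter_eq_empty.1 (hC j hj i hi hji)] at this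
      exact t.1.empty_notMem this
    · intro h; exact absurd hi h
  · push Not at h
    rw [Finset.sum_eq_zero fun i hi => P_apply_of_notMem (h i hi) _, norm_zero]
    exact mul_nonneg hb (norm_nonneg _)

end Pool.Agent.H6.Shai
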