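import Pool.Agent.H6.Shai.Hom

/-!
# The Drewnowski–Roberts argument

Proof (paper).  Let `𝒞 = {C | ∀ n, C ∈ un u n}` (closed under intersections and supersets), `S` a
lift of `B`.
* `step` : for every infinite `D₀` and `δ > 0` there is an infinite `D₁ ⊆ D₀` with
  `‖Φ (P D₁) ∘ B‖ ≤ δ`.  Proof: let `δ' > 0` be small.  Let `a₀` be the infimum of
  `‖P D ∘ S ∘ P C‖` over infinite `D ⊆ D₀` and `C ∈ 𝒞`, choose `D₁, C₁` with value
  `a = ‖P D₁ ∘ S ∘ P C₁‖ < a₀ + δ'`.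
  (i) Let `C' ∈ 𝒞`, `C' ⊆ C₁` and `x : XX` with `‖x‖ ≤ 1`, `P (C₁ \ C') x = x`.  Then
  `‖P D₁ (S x)‖ ≤ 2 δ'`.  Otherwise by `rho_surj` `S x = rho f` and
  `D = {m ∈ D₁ | 2 δ' < ‖f m‖}` is infinite (if it were finite then `‖(S x) t‖ ≤ 2 δ'` for all
  `t ∋ D₁`).  `‖P D ∘ S ∘ P C'‖ ≥ a₀ > a - δ'`, so by `exists_point_of_lt_norm` there are `x'`,
  `‖x'‖ ≤ 1`, and a point `t` with `D ∈ t`, `a - δ' < ‖(S (P C' x')) t‖`.  As `D ∈ t`,
  `‖(S x) t‖ ≥ 2 δ'`, and for a suitable unimodular `θ`,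
  `‖(S (P C' x' + θ x)) t‖ = ‖(S (P C' x')) t‖ + ‖(S x) t‖ > a - δ' + 2 δ' > a`.
  But `P C' x' + θ x = P C₁ (P C' x' + θ x)` has norm `≤ 1` (disjoint supports `C'`, `C₁ \ C'`),
  `D₁ ∈ t`, so the left side is `≤ ‖P D₁ ∘ S ∘ P C₁‖ = a`.  Contradiction.
  (ii) For `‖x‖ ≤ 1` put `y = x - E (r u x)` (norm `≤ 2`, `y (un u n) = 0` for all `n` by
  `E_apply_un`).  Write `y = rho f`, `‖f‖ ≤ 2`.  For `η > 0` let
  `C' = C₁ ∩ {m | ‖f m‖ < η} ∈ 𝒞`.  `P C₁ y = P (C₁ \ C') y + P C' y`, `‖P C' y‖ ≤ η`, and by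
  (i) (scaled) `‖P D₁ (S (P (C₁ \ C') y))‖ ≤ 4 δ'`.  So
  `‖P D₁ ∘ S ∘ P C₁ ∘ (id - E ∘ r u)‖ ≤ 4 δ'`.  Apply `Φ`: as `Φ (E ∘ r u) = 0` and
  `B ∘ Φ (P C₁) = B`, `‖Φ (P D₁) ∘ B‖ ≤ 4 δ' ‖Φ‖`.
* Iterate: `D₀ ⊇ D₁ ⊇ D₂ ⊇ …` infinite with `‖Φ (P D_k) ∘ B‖ ≤ 1 / (k+1)`; choose an increasing
  sequence `m_k ∈ D_k`, `D = {m_k}`; `D \ D_k` is finite, so `P D = P (D ∩ D_k) = P D ∘ P D_k`
  (`P_congr`, `P_comp_P`), `‖Φ (P D) ∘ B‖ ≤ ‖Φ‖ / (k+1)` for all `k`.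
-/

open Filter Topology

namespace Pool.Agent.H6.Shai

universe u

variable {𝕜 : Type} [RCLike 𝕜] {Y : Type u} [NormedAddCommGroup Y] [NormedSpace 𝕜 Y]

private lemma exists_phase (z w : 𝕜) : ∃ θ : 𝕜, ‖θ‖ ≤ 1 ∧ ‖z + θ * w‖ = ‖z‖ + ‖w‖ := by
  by_cases hz : z = 0
  · exact ⟨1, by simp, by simp [hz]⟩
  by_cases hw : w = 0
  · exact ⟨1, by simp, by simp [hw]⟩
  have hz' : ‖z‖ ≠ 0 := norm_ne_zero_iff.2 hz
  have hw' : ‖w‖ ≠ 0 := norm_ne_zero_iff.2 hw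
  refine ⟨((‖w‖ / ‖z‖ : ℝ) : 𝕜) * (z / w), ?_, ?_⟩
  · rw [norm_mul, norm_div, RCLike.norm_ofReal, abs_of_nonneg (by positivity)]
    refine le_of_eq ?_
    field_simp
  · have h1 : z + ((‖w‖ / ‖z‖ : ℝ) : 𝕜) * (z / w) * w = ((1 + ‖w‖ / ‖z‖ : ℝ) : 𝕜) * z := by
      rw [mul_assoc, div_mul_cancel₀ _ hw]
      push_cast
      ring
    rw [h1, norm_mul, RCLike.norm_ofReal, abs_of_nonneg (by positivity)]
    field_simp

private lemma notMem_of_finite {D : Set ℕ} (h : D.Finite) (t : NU) : D ∉ t.1 := by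
  intro hD
  have : Dᶜ ∈ t.1 := t.2 (by simpa using h)
  exact (Ultrafilter.compl_mem_iff_notMem.1 this) hD

/-- part (i) of the step -/
private lemma step_i {S : XX 𝕜 →L[𝕜] XX 𝕜} {D₁ C₁ C' : Set ℕ} {a₀ δ' : ℝ} (hδ' : 0 < δ')
    (hlt : ‖P D₁ ∘L S ∘L P C₁‖ < a₀ + δ')
    (ha₀ : ∀ D ⊆ D₁, D.Infinite → a₀ ≤ ‖P D ∘L S ∘L P C'‖)
    (hC' : C' ⊆ C₁) (x : XX 𝕜) (hx : ‖x‖ ≤ 1) (hPx : P (C₁ \ C') x = x) :
    ‖P D₁ (S x)‖ ≤ 2 * δ' := by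
  by_contra hcon
  obtain ⟨f, hf, -⟩ := rho_surj (S x)
  set D : Set ℕ := {m | m ∈ D₁ ∧ 2 * δ' < ‖f m‖} with hD
  have hDD : D ⊆ D₁ := fun m hm => hm.1
  have hDinf : D.Infinite := by
    intro hfin
    apply hcon
    refine (ContinuousMap.norm_le _ (by positivity)).2 fun t => ?_
    by_cases ht : D₁ ∈ t.1
    · rw [P_apply_of_mem ht, ← hf]
      refine le_of_tendsto (tendsto_rho f t).norm ?_
      have h1 : Dᶜ ∈ t.1 := t.2 (by simpa using hfin)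
      filter_upwards [ht, h1] with m hm hm'
      by_contra hlt'
      exact hm' ⟨hm, not_le.1 hlt'⟩
    · rw [P_apply_of_notMem ht, norm_zero]; positivity
  set a := ‖P D₁ ∘L S ∘L P C₁‖ with ha
  have h2 : a - δ' < ‖P D ∘L (S ∘L P C')‖ := by
    have := ha₀ D hDD hDinf
    linarith
  obtain ⟨x', hx', t, ht, htx⟩ := exists_point_of_lt_norm hDinf (S ∘L P C') h2
  have ht₁ : D₁ ∈ t.1 := mem_of_superset ht hDD
  have hw : 2 * δ' ≤ ‖S x t‖ := by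
    rw [← hf]
    refine ge_of_tendsto (tendsto_rho f t).norm ?_
    filter_upwards [ht] with m hm
    exact hm.2.le
  obtain ⟨θ, hθ, hθ'⟩ := exists_phase ((S (P C' x')) t) (S x t)
  set y : XX 𝕜 := P C' x' + θ • x with hy
  have hx0 : ∀ s : NU, C₁ \ C' ∉ s.1 → x s = 0 := fun s hs => by
    rw [← hPx, P_apply_of_notMem hs]
  have hy1 : ‖y‖ ≤ 1 := by
    refine (ContinuousMap.norm_le _ zero_le_one).2 fun s => ?_
    rw [hy, ContinuousMap.add_apply, ContinuousMap.smul_apply]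
    by_cases hs : C' ∈ s.1
    · have hs' : C₁ \ C' ∉ s.1 := fun h => by
        have := inter_mem h hs
        rw [Set.sdiff_inter_self] at this
        exact s.1.empty_notMem this
      rw [hx0 s hs', smul_zero, add_zero]
      exact ((P C' x').norm_coe_le_norm s).trans ((norm_P_apply_le _ _).trans hx')
    · rw [P_apply_of_notMem hs, zero_add, smul_eq_mul, norm_mul]
      exact mul_le_one₀ hθ (norm_nonneg _) ((x.norm_coe_le_norm s).trans hx)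
  have hy2 : P C₁ y = y := by
    ext s
    by_cases hs : C₁ ∈ s.1
    · rw [P_apply_of_mem hs]
    · rw [P_apply_of_notMem hs, hy, ContinuousMap.add_apply, ContinuousMap.smul_apply,
        P_apply_of_notMem (fun h => hs (mem_of_superset h hC')),
        hx0 s (fun h => hs (mem_of_superset h Set.sdiff_subset)), smul_zero, add_zero]
  have h3 : ‖(P D₁ ∘L S ∘L P C₁) y‖ ≤ a := by
    refine ((P D₁ ∘L S ∘L P C₁).le_opNorm y).trans ?_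
    rw [← ha]
    exact mul_le_of_le_one_right (norm_nonneg _) hy1
  have h4 : ((P D₁ ∘L S ∘L P C₁) y) t = (S y) t := by
    rw [ContinuousLinearMap.comp_apply, ContinuousLinearMap.comp_apply, hy2, P_apply_of_mem ht₁]
  have h5 : (S y) t = (S (P C' x')) t + θ * S x t := by
    rw [hy, map_add, map_smul, ContinuousMap.add_apply, ContinuousMap.smul_apply, smul_eq_mul]
  have h6 : ‖(S y) t‖ ≤ a := by
    rw [← h4]
    exact (ContinuousMap.norm_coe_le_norm _ t).trans h3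
  rw [h5, hθ'] at h6
  have h7 : a - δ' < ‖(S (P C' x')) t‖ := htx
  linarith

private lemma step_i' {S : XX 𝕜 →L[𝕜] XX 𝕜} {D₁ C₁ C' : Set ℕ} {a₀ δ' : ℝ} (hδ' : 0 < δ')
    (hlt : ‖P D₁ ∘L S ∘L P C₁‖ < a₀ + δ')
    (ha₀ : ∀ D ⊆ D₁, D.Infinite → a₀ ≤ ‖P D ∘L S ∘L P C'‖)
    (hC' : C' ⊆ C₁) (x : XX 𝕜) (hPx : P (C₁ \ C') x = x) :
    ‖P D₁ (S x)‖ ≤ 2 * δ' * ‖x‖ := by
  by_cases hx : x = 0
  · simp [hx]
  have hx' : ‖x‖ ≠ 0 := norm_ne_zero_iff.2 hx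
  have h := step_i hδ' hlt ha₀ hC' (((‖x‖⁻¹ : ℝ) : 𝕜) • x) (by
    rw [norm_smul, RCLike.norm_ofReal, abs_of_nonneg (by positivity), inv_mul_cancel₀ hx'])
    (by rw [map_smul, hPx])
  rw [map_smul, map_smul, norm_smul, RCLike.norm_ofReal, abs_of_nonneg (by positivity),
    inv_mul_le_iff₀ (by positivity)] at h
  linarith

private lemma step_ii {S : XX 𝕜 →L[𝕜] XX 𝕜} {u : NU} {D₁ C₁ : Set ℕ} {a₀ δ' : ℝ} (hδ' : 0 < δ')
    (hC₁ : ∀ n, C₁ ∈ (un u n).1) (hlt : ‖P D₁ ∘L S ∘L P C₁‖ < a₀ + δ')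
    (ha₀ : ∀ C : Set ℕ, (∀ n, C ∈ (un u n).1) → ∀ D ⊆ D₁, D.Infinite →
      a₀ ≤ ‖P D ∘L S ∘L P C‖) (x : XX 𝕜) :
    ‖P D₁ (S (P C₁ (x - E (r u x))))‖ ≤ 4 * δ' * ‖x‖ := by
  set y : XX 𝕜 := x - E (r u x) with hy
  have hynorm : ‖y‖ ≤ 2 * ‖x‖ := by
    calc ‖y‖ ≤ ‖x‖ + ‖E (r u x)‖ := norm_sub_le _ _
      _ ≤ ‖x‖ + ‖x‖ := by
        gcongr
        exact (norm_E_apply_le _).trans (norm_r_apply_le _ _)
      _ = 2 * ‖x‖ := by ring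
  have hy0 : ∀ n, y (un u n) = 0 := fun n => by
    rw [hy, ContinuousMap.sub_apply, E_apply_un, r_apply, sub_self]
  obtain ⟨f, hf, -⟩ := rho_surj y
  refine le_of_forall_pos_le_add fun ε hε => ?_
  set η : ℝ := ε / (‖S‖ + 1) with hη
  have hη0 : 0 < η := by positivity
  set C' : Set ℕ := C₁ ∩ {m | ‖f m‖ < η} with hC'
  have hsub : C' ⊆ C₁ := Set.inter_subset_left
  have hCC : ∀ n, C' ∈ (un u n).1 := fun n => by
    refine inter_mem (hC₁ n) ?_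
    have h1 := tendsto_rho f (un u n)
    rw [hf, hy0 n] at h1
    have h2 := h1.norm
    rw [norm_zero] at h2
    exact h2.eventually (gt_mem_nhds hη0)
  have hdec : P C₁ y = P (C₁ \ C') y + P C' y := by
    have h1 : C₁ = (C₁ \ C') ∪ C' := (Set.sdiff_union_of_subset hsub).symm
    conv_lhs => rw [h1, P_union Set.disjoint_sdiff_left]
    rfl
  have hsmall : ‖P C' y‖ ≤ η := by
    refine (ContinuousMap.norm_le _ hη0.le).2 fun t => ?_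
    by_cases ht : C' ∈ t.1
    · rw [P_apply_of_mem ht, ← hf]
      refine le_of_tendsto (tendsto_rho f t).norm ?_
      filter_upwards [ht] with m hm
      exact hm.2.le
    · rw [P_apply_of_notMem ht, norm_zero]; exact hη0.le
  have hPP : P (C₁ \ C') (P (C₁ \ C') y) = P (C₁ \ C') y := by
    have := congrArg (fun T => T y) (P_comp_P (𝕜 := 𝕜) (C₁ \ C') (C₁ \ C'))
    rw [Set.inter_self] at this
    exact this
  have h1 : ‖P D₁ (S (P (C₁ \ C') y))‖ ≤ 4 * δ' * ‖x‖ := by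
    refine (step_i' hδ' hlt (ha₀ C' hCC) hsub _ hPP).trans ?_
    have : ‖P (C₁ \ C') y‖ ≤ 2 * ‖x‖ := (norm_P_apply_le _ _).trans hynorm
    nlinarith
  have h2 : ‖P D₁ (S (P C' y))‖ ≤ ε := by
    refine (norm_P_apply_le _ _).trans ?_
    refine (S.le_opNorm _).trans ?_
    have h3 : ‖S‖ * ‖P C' y‖ ≤ (‖S‖ + 1) * η := by
      refine mul_le_mul (by linarith) hsmall (norm_nonneg _) (by positivity)
    refine h3.trans (le_of_eq ?_)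
    rw [hη]
    field_simp
  rw [hdec, map_add, map_add]
  exact (norm_add_le _ _).trans (add_le_add h1 h2)

private lemma step (H : Hom 𝕜 Y) (u : NU) (hEr : H.Φ (E ∘L r u) = 0) (B : Y →L[𝕜] Y)
    (hB : ∀ C : Set ℕ, (∀ n, C ∈ (un u n).1) → B ∘L H.Φ (P C) = B) (D₀ : Set ℕ)
    (hD₀ : D₀.Infinite) {δ : ℝ} (hδ : 0 < δ) :
    ∃ D ⊆ D₀, D.Infinite ∧ ‖H.Φ (P D) ∘L B‖ ≤ δ := by
  obtain ⟨S, hS⟩ := H.surj B
  set δ' : ℝ := δ / (4 * (‖H.Φ‖ + 1)) with hδ'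
  have hδ'0 : 0 < δ' := by positivity
  set A : Set ℝ := {a | ∃ D ⊆ D₀, D.Infinite ∧ ∃ C : Set ℕ, (∀ n, C ∈ (un u n).1) ∧
    a = ‖P D ∘L S ∘L P C‖} with hA
  have hAne : A.Nonempty := ⟨_, D₀, subset_rfl, hD₀, Set.univ, fun n => univ_mem, rfl⟩
  have hAbdd : BddBelow A := ⟨0, by
    rintro a ⟨D, -, -, C, -, rfl⟩
    exact norm_nonneg _⟩
  obtain ⟨a, ⟨D₁, hD₁, hD₁inf, C₁, hC₁, rfl⟩, hlt⟩ :=
    exists_lt_of_csInf_lt hAne (show sInf A < sInf A + δ' by linarith)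
  refine ⟨D₁, hD₁, hD₁inf, ?_⟩
  have key : ∀ x, ‖P D₁ (S (P C₁ (x - E (r u x))))‖ ≤ 4 * δ' * ‖x‖ := fun x =>
    step_ii hδ'0 hC₁ hlt (fun C hC D hD hDinf =>
      csInf_le hAbdd ⟨D, hD.trans hD₁, hDinf, C, hC, rfl⟩) x
  set T : XX 𝕜 →L[𝕜] XX 𝕜 := P D₁ ∘L S ∘L P C₁ - (P D₁ ∘L S ∘L P C₁) ∘L (E ∘L r u) with hT
  have hTn : ‖T‖ ≤ 4 * δ' := by
    refine ContinuousLinearMap.opNorm_le_bound _ (by positivity) fun x => ?_
    have h1 : T x = P D₁ (S (P C₁ (x - E (r u x)))) := by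
      rw [map_sub, map_sub, map_sub]
      rfl
    rw [h1]
    exact key x
  have hΦT : H.Φ T = H.Φ (P D₁) ∘L B := by
    rw [hT, map_sub, H.map_comp _ (E ∘L r u), hEr, ContinuousLinearMap.comp_zero, sub_zero,
      H.map_comp, H.map_comp, hS, hB C₁ hC₁]
  rw [← hΦT]
  refine (H.Φ.le_opNorm T).trans ?_
  have h2 : ‖H.Φ‖ * ‖T‖ ≤ (‖H.Φ‖ + 1) * (4 * δ') :=
    mul_le_mul (by linarith) hTn (norm_nonneg _) (by positivity)
  refine h2.trans (le_of_eq ?_)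
  rw [hδ']
  field_simp

theorem drewnowskiRoberts (H : Hom 𝕜 Y) (u : NU) (hEr : H.Φ (E ∘L r u) = 0) (B : Y →L[𝕜] Y)
    (hB : ∀ C : Set ℕ, (∀ n, C ∈ (un u n).1) → B ∘L H.Φ (P C) = B) (D₀ : Set ℕ)
    (hD₀ : D₀.Infinite) : ∃ D ⊆ D₀, D.Infinite ∧ H.Φ (P D) ∘L B = 0 := by
  have hstep : ∀ (D : {D : Set ℕ // D.Infinite}) (k : ℕ), ∃ D' : {D : Set ℕ // D.Infinite},
      D'.1 ⊆ D.1 ∧ ‖H.Φ (P D'.1) ∘L B‖ ≤ 1 / ((k : ℝ) + 1) := fun D k => by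
    obtain ⟨D', h1, h2, h3⟩ := step H u hEr B hB D.1 D.2
      (show (0 : ℝ) < 1 / ((k : ℝ) + 1) by positivity)
    exact ⟨⟨D', h2⟩, h1, h3⟩
  choose g hg using hstep
  set q : ℕ → {D : Set ℕ // D.Infinite} := fun k =>
    Nat.rec ⟨D₀, hD₀⟩ (fun k D => g D k) k with hq
  have hq1 : ∀ k, (q (k + 1)).1 ⊆ (q k).1 := fun k => (hg (q k) k).1
  have hq2 : ∀ k, ‖H.Φ (P (q (k + 1)).1) ∘L B‖ ≤ 1 / ((k : ℝ) + 1) := fun k => (hg (q k) k).2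
  have hanti : Antitone fun k => (q k).1 := antitone_nat_of_succ_le hq1
  obtain ⟨m, hm, hmq⟩ := Filter.extraction_forall_of_frequently
    (P := fun k j => j ∈ (q k).1) (fun k => Nat.frequently_atTop_iff_infinite.2 (q k).2)
  refine ⟨Set.range m, ?_, Set.infinite_range_of_injective hm.injective, ?_⟩
  · rintro _ ⟨k, rfl⟩
    exact hanti (Nat.zero_le k) (hmq k)
  · have hfin : ∀ k, (Set.range m \ (q k).1).Finite := fun k => by
      refine ((Set.finite_Iio k).image m).subset ?_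
      rintro _ ⟨⟨j, rfl⟩, hj⟩
      refine ⟨j, ?_, rfl⟩
      by_contra hjk
      exact hj (hanti (not_lt.1 hjk) (hmq j))
    have hPD : ∀ k, (P (Set.range m) : XX 𝕜 →L[𝕜] XX 𝕜) = P (Set.range m) ∘L P (q k).1 :=
      fun k => by
        rw [P_comp_P]
        refine P_congr ?_ ?_
        · refine (hfin k).subset ?_
          rintro j ⟨h1, h2⟩
          exact ⟨h1, fun h3 => h2 ⟨h1, h3⟩⟩
        · have : (Set.range m ∩ (q k).1) \ Set.range m = ∅ := by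
            rw [Set.sdiff_eq_empty]
            exact Set.inter_subset_left
          rw [this]
          exact Set.finite_empty
    have hbound : ∀ k : ℕ, ‖H.Φ (P (Set.range m)) ∘L B‖ ≤
        ‖H.Φ (P (Set.range m))‖ * (1 / ((k : ℝ) + 1)) := fun k => by
      have h1 : H.Φ (P (Set.range m)) ∘L B =
          H.Φ (P (Set.range m)) ∘L (H.Φ (P (q (k + 1)).1) ∘L B) := by
        conv_lhs => rw [hPD (k + 1), H.map_comp, ContinuousLinearMap.comp_assoc]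
      rw [h1]
      exact (ContinuousLinearMap.opNorm_comp_le _ _).trans
        (mul_le_mul_of_nonneg_left (hq2 k) (norm_nonneg _))
    have hlim : Tendsto (fun k : ℕ => ‖H.Φ (P (Set.range m))‖ * (1 / ((k : ℝ) + 1))) atTop
        (𝓝 (‖H.Φ (P (Set.range m))‖ * 0)) :=
      tendsto_one_div_add_atTop_nhds_zero_nat.const_mul _
    rw [mul_zero] at hlim
    have h0 := ge_of_tendsto' hlim hbound
    exact norm_le_zero_iff.1 h0

end Pool.Agent.H6.Shai
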