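import Mathlib

/-!
# The SHAI property and the remainder of `βℕ`
-/

namespace Pool.Agent.H6.Shai

universe u

/-- The SHAI property (surjective homomorphisms are injective) of a normed space `X` over `𝕜`
(`ℝ` or `ℂ`): for every non-zero Banach space `Y`, every surjective algebra homomorphism from the
algebra of bounded operators on `X` to the algebra of bounded operators on `Y` is injective. -/
def SHAI (𝕜 : Type) [RCLike 𝕜] (X : Type) [NormedAddCommGroup X] [NormedSpace 𝕜 X] : Prop :=
  ∀ (Y : Type u) [NormedAddCommGroup Y] [NormedSpace 𝕜 Y] [CompleteSpace Y] [Nontrivial Y]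
    (φ : (X →L[𝕜] X) →ₙₐ[𝕜] (Y →L[𝕜] Y)), Function.Surjective φ → Function.Injective φ

/-- The nonprincipal ultrafilters on `ℕ` (those that contain all cofinite sets). -/
abbrev NU : Type := {u : Ultrafilter ℕ // (u : Filter ℕ) ≤ Filter.cofinite}

/-- `ℓ_∞` -/
abbrev LI (𝕜 : Type) [RCLike 𝕜] : Type := BoundedContinuousFunction ℕ 𝕜

lemma isClosed_NU : IsClosed {u : Ultrafilter ℕ | (u : Filter ℕ) ≤ Filter.cofinite} := by
  have : {u : Ultrafilter ℕ | (u : Filter ℕ) ≤ Filter.cofinite} =
      ⋂ n : ℕ, {u : Ultrafilter ℕ | ({n}ᶜ : Set ℕ) ∈ u} := by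
    ext u
    simp only [Set.mem_iInter]
    constructor
    · intro h n
      exact h (by simp)
    · intro h
      rcases Ultrafilter.le_cofinite_or_eq_pure u with h' | ⟨n, rfl⟩
      · exact h'
      · have := h n
        exact absurd this (by simp)
  rw [this]
  exact isClosed_iInter fun n => ultrafilter_isClosed_basic _

instance compactSpace_NU : CompactSpace NU :=
  isCompact_iff_compactSpace.1 isClosed_NU.isCompact

end Pool.Agent.H6.Shai
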