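import Pool.Agent.H6.Shai.Fix

/-!
# Operators factoring through `ℓ_∞` are in the kernel

Proof (paper).
* `Er_mem` : `exists_point` gives `u', y₀, w₀`; let `T` be a lift of `w₀.smulRight y₀`;
  `exists_fix` and `factor` give `α ∘ T ∘ β = id_{ℓ_∞}`.  `e = E ∘ r u` is an idempotent
  (`r_comp_E`) and `e = E ∘ (α ∘ T ∘ β) ∘ r u`, so
  `Φ e = Φ (E ∘ α) ∘ Φ T ∘ Φ (β ∘ r u)`, hence `Φ e z = (w₀ (Q z)) • v` for a bounded operator
  `Q` and a vector `v` : `Φ e = g.smulRight v`.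
  Let `j₁, j₂, π₁, π₂ : ℓ_∞ → ℓ_∞` be `(j₁ a) (2k) = a k`, `(j₁ a) (2k+1) = 0`, similarly `j₂`
  (odd places), `(π₁ a) k = a (2k)`, `(π₂ a) k = a (2k+1)`: `π_i ∘ j_i = id`, `π_i ∘ j_k = 0`
  for `i ≠ k`.  `e_i = E ∘ j_i ∘ π_i ∘ r u` satisfies `e_i = e ∘ e_i ∘ e`, `e_1 ∘ e_2 = 0`,
  and `e = (E ∘ π_i ∘ r u) ∘ e_i ∘ (E ∘ j_i ∘ r u)`.  If `Φ e ≠ 0` then `Φ e_1 ≠ 0 ≠ Φ e_2` but
  `Φ e_i = Φ e ∘ Φ e_i ∘ Φ e = c_i • Φ e` (rank one), and `Φ e_1 ∘ Φ e_2 = c_1 c_2 Φ e = 0`: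
  contradiction.
-/

open Filter Topology

namespace Pool.Agent.H6.Shai

universe u

variable {𝕜 : Type} [RCLike 𝕜] {Y : Type u} [NormedAddCommGroup Y] [NormedSpace 𝕜 Y]

/-- composition with `h` -/
private noncomputable def pull (h : ℕ → ℕ) : LI 𝕜 →L[𝕜] LI 𝕜 :=
  LinearMap.mkContinuous
    { toFun := fun a => BoundedContinuousFunction.ofNormedAddCommGroupDiscrete
        (fun n => a (h n)) ‖a‖ (fun _ => a.norm_coe_le_norm _)
      map_add' := fun x y => rfl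
      map_smul' := fun c x => rfl } 1 (fun a => by
    rw [one_mul]
    exact (BoundedContinuousFunction.norm_le (norm_nonneg _)).2 fun _ => a.norm_coe_le_norm _)

private lemma pull_apply (h : ℕ → ℕ) (a : LI 𝕜) (n : ℕ) : pull h a n = a (h n) := rfl

/-- the even places (`s = false`) or the odd places (`s = true`) -/
private noncomputable def cut (s : Bool) : LI 𝕜 →L[𝕜] LI 𝕜 :=
  LinearMap.mkContinuous
    { toFun := fun a => BoundedContinuousFunction.ofNormedAddCommGroupDiscrete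
        (fun n => if Nat.bodd n = s then a n else 0) ‖a‖ (fun n => by
          split_ifs
          · exact a.norm_coe_le_norm _
          · rw [norm_zero]; exact norm_nonneg _)
      map_add' := fun x y => by
        ext n
        change (if Nat.bodd n = s then (x + y) n else 0) =
          (if Nat.bodd n = s then x n else 0) + (if Nat.bodd n = s then y n else 0)
        split_ifs
        · rfl
        · rw [add_zero]
      map_smul' := fun c x => by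
        ext n
        change (if Nat.bodd n = s then (c • x) n else 0) = c • (if Nat.bodd n = s then x n else 0)
        split_ifs
        · rfl
        · rw [smul_zero] } 1 (fun a => by
    rw [one_mul]
    refine (BoundedContinuousFunction.norm_le (norm_nonneg _)).2 fun n => ?_
    change ‖(if Nat.bodd n = s then a n else 0)‖ ≤ ‖a‖
    split_ifs
    · exact a.norm_coe_le_norm _
    · rw [norm_zero]; exact norm_nonneg _)

private lemma cut_apply (s : Bool) (a : LI 𝕜) (n : ℕ) :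
    cut s a n = if Nat.bodd n = s then a n else 0 := rfl

/-- the injections -/
private noncomputable def jj (s : Bool) : LI 𝕜 →L[𝕜] LI 𝕜 := cut s ∘L pull fun n => n / 2

/-- the projections -/
private noncomputable def pp (s : Bool) : LI 𝕜 →L[𝕜] LI 𝕜 := pull fun n => Nat.bit s n

private lemma pp_comp_jj (s s' : Bool) :
    pp s ∘L (jj s' : LI 𝕜 →L[𝕜] LI 𝕜) = if s = s' then ContinuousLinearMap.id 𝕜 _ else 0 := by
  ext a n
  rw [ContinuousLinearMap.comp_apply, pp, pull_apply, jj, ContinuousLinearMap.comp_apply,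
    cut_apply, pull_apply, Nat.bodd_bit]
  by_cases h : s = s'
  · rw [if_pos h, if_pos h]
    have h1 : Nat.bit s n / 2 = n := Nat.bit_div_two s n
    rw [h1]
    rfl
  · rw [if_neg h, if_neg h]
    rfl

/-- the rank one property -/
private lemma rank_one (H : Hom 𝕜 Y) {α : XX 𝕜 →L[𝕜] LI 𝕜} {β : LI 𝕜 →L[𝕜] XX 𝕜}
    {T : XX 𝕜 →L[𝕜] XX 𝕜} {y₀ : Y} {w₀ : Y →L[𝕜] 𝕜} (hT : H.Φ T = w₀.smulRight y₀)
    (hid : α ∘L T ∘L β = ContinuousLinearMap.id 𝕜 (LI 𝕜)) (A : LI 𝕜 →L[𝕜] XX 𝕜)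
    (B : XX 𝕜 →L[𝕜] LI 𝕜) :
    H.Φ (A ∘L B) = (w₀ ∘L H.Φ (β ∘L B)).smulRight (H.Φ (A ∘L α) y₀) := by
  have h1 : A ∘L B = (A ∘L α) ∘L (T ∘L (β ∘L B)) := by
    have h2 : (A ∘L α) ∘L (T ∘L (β ∘L B)) = A ∘L ((α ∘L T ∘L β) ∘L B) := by
      ext x
      rfl
    rw [h2, hid]
    rfl
  rw [h1, H.map_comp, H.map_comp, hT]
  ext z
  simp

lemma Er_mem [CompleteSpace Y] [Nontrivial Y] (H : Hom 𝕜 Y) (u : NU) :
    H.Φ (E ∘L r u) = 0 := by
  obtain ⟨u', y₀, w₀, hw1, hw⟩ := H.exists_point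
  obtain ⟨T, hT⟩ := H.surj (w₀.smulRight y₀)
  obtain ⟨ι, f, ε, hε, hf, hfix⟩ := exists_fix H u' y₀ w₀ hw1 hw T hT
  obtain ⟨α, β, hid⟩ := factor T ι f hf ε hε hfix
  by_contra hne
  have hr : ∀ A B : LI 𝕜 →L[𝕜] LI 𝕜,
      ((E : LI 𝕜 →L[𝕜] XX 𝕜) ∘L A ∘L r u) ∘L (E ∘L B ∘L r u) = E ∘L (A ∘L B) ∘L r u := by
    intro A B
    have h1 : ((E : LI 𝕜 →L[𝕜] XX 𝕜) ∘L A ∘L r u) ∘L (E ∘L B ∘L r u) =
        E ∘L A ∘L (r u ∘L E) ∘L B ∘L r u := by
      ext x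
      rfl
    rw [h1, r_comp_E]
    rfl
  have hrΦ : ∀ A B : LI 𝕜 →L[𝕜] LI 𝕜,
      H.Φ ((E : LI 𝕜 →L[𝕜] XX 𝕜) ∘L A ∘L r u) ∘L H.Φ (E ∘L B ∘L r u) =
        H.Φ (E ∘L (A ∘L B) ∘L r u) := by
    intro A B
    rw [← H.map_comp, hr]
  set e : XX 𝕜 →L[𝕜] XX 𝕜 := E ∘L r u with he
  have he' : e = E ∘L (ContinuousLinearMap.id 𝕜 (LI 𝕜)) ∘L r u := by
    rw [he]
    rfl
  obtain ⟨g, v, hgv⟩ : ∃ (g : Y →L[𝕜] 𝕜) (v : Y), H.Φ e = g.smulRight v :=
    ⟨_, _, rank_one H hT hid E (r u)⟩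
  -- the corner elements are multiples of `Φ e`
  have hc : ∀ A : LI 𝕜 →L[𝕜] LI 𝕜, ∃ c : 𝕜, H.Φ (E ∘L A ∘L r u) = c • H.Φ e := by
    intro A
    have h1 : H.Φ (E ∘L A ∘L r u) = H.Φ e ∘L H.Φ (E ∘L A ∘L r u) ∘L H.Φ e := by
      rw [he', hrΦ, hrΦ]
      rfl
    refine ⟨g (H.Φ (E ∘L A ∘L r u) v), ?_⟩
    conv_lhs => rw [h1]
    rw [hgv]
    ext z
    simp only [ContinuousLinearMap.comp_apply, ContinuousLinearMap.smulRight_apply, map_smul,
      smul_apply]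
    rw [smul_smul, mul_comm, ← smul_smul]
  obtain ⟨c1, hc1⟩ := hc (jj false ∘L pp false)
  obtain ⟨c2, hc2⟩ := hc (jj true ∘L pp true)
  have hz : H.Φ (E ∘L (jj false ∘L pp false) ∘L r u) ∘L
      H.Φ (E ∘L (jj true ∘L pp true) ∘L r u) = 0 := by
    rw [hrΦ]
    have h1 : (jj false ∘L pp false) ∘L ((jj true : LI 𝕜 →L[𝕜] LI 𝕜) ∘L pp true) =
        jj false ∘L (pp false ∘L jj true) ∘L pp true := rfl
    rw [h1, pp_comp_jj, if_neg (by decide)]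
    simp
  have hee : H.Φ e ∘L H.Φ e = H.Φ e := by
    rw [he', hrΦ]
    rfl
  have hnz : ∀ s : Bool, H.Φ (E ∘L (jj s ∘L pp s) ∘L r u) ≠ 0 := by
    intro s h0
    apply hne
    have h1 : H.Φ e = H.Φ (E ∘L pp s ∘L r u) ∘L H.Φ (E ∘L (jj s ∘L pp s) ∘L r u) ∘L
        H.Φ (E ∘L jj s ∘L r u) := by
      rw [hrΦ, hrΦ]
      have h2 : pp s ∘L ((jj s ∘L pp s) ∘L (jj s : LI 𝕜 →L[𝕜] LI 𝕜)) =
          (pp s ∘L jj s) ∘L (pp s ∘L jj s) := rfl
      rw [h2, pp_comp_jj, if_pos rfl]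
      rfl
    rw [h1, h0]
    simp
  have hc1n : c1 ≠ 0 := by
    rintro rfl
    exact hnz false (by rw [hc1, zero_smul])
  have hc2n : c2 ≠ 0 := by
    rintro rfl
    exact hnz true (by rw [hc2, zero_smul])
  rw [hc1, hc2] at hz
  have h3 : (c1 • H.Φ e) ∘L (c2 • H.Φ e) = (c1 * c2) • H.Φ e := by
    rw [ContinuousLinearMap.smul_comp, ContinuousLinearMap.comp_smul, hee, smul_smul]
  rw [h3] at hz
  rcases smul_eq_zero.1 hz with h4 | h4
  · exact (mul_ne_zero hc1n hc2n) h4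
  · exact hne h4

end Pool.Agent.H6.Shai
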