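import Pool.Agent.H6.Shai.Defs

/-!
# Rosenthal's lemma and factorisation of the identity of `ℓ_∞`

Proofs (paper).
* `rosenthal` : for a functional `m` on `ℓ_∞` and `A ⊆ ℕ` let
  `v m A = sup {‖m a‖ : ‖a‖ ≤ 1, a = 0 off A}`.  For disjoint `A, B` one has
  `v m A + v m B ≤ v m (A ∪ B)` (multiply `a`, `b` by unimodular scalars), and `v m` is monotone,
  `v m univ ≤ ‖m‖`.
  Claim by induction on `q : ℕ` : if `N` is an infinite subset of `ℕ` and
  `v (m k) N ≤ q * ε` for all `k ∈ N`, then there is an infinite `M ⊆ N` with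
  `v (m k) (M \ {k}) ≤ ε` for all `k ∈ M`.
  (`q = 0` is trivial.)  Split `N` into infinitely many disjoint infinite sets `N_p`.  If some
  `M = N_p` works, done.  Otherwise for each `p` there is `k_p ∈ N_p` with
  `v (m k_p) (N_p \ {k_p}) > ε`.  Let `N' = {k_p}`; it is infinite, `N' ∩ N_p = {k_p}`, so
  `v (m k_p) N' ≤ v (m k_p) N - ε ≤ (q - 1) ε`; apply the induction hypothesis to `N'`.
  Finally enumerate `M` increasingly (`Nat.orderEmbeddingOfSet` or `Nat.nth`).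
* `factor` : apply `rosenthal` to `m k = f k ∘ T ∘ ι` (norms `≤ ‖T‖ ‖ι‖`) with `ε / 2`.
  `β a = ι (Σ_j a_j e_{κ j})` (the function which is `a j` at `κ j` and `0` elsewhere),
  `p x = (f (κ j) x)_j`.  `G = p ∘ T ∘ β : ℓ_∞ → ℓ_∞`,
  `(G a) j = a j * d j + err`, `d j = f (κ j) (T (ι (e (κ j))))`, `|d j| ≥ ε`,
  `|err| ≤ (ε / 2) ‖a‖`.  So `‖diag(1/d) ∘ G - id‖ ≤ 1/2`, hence `diag(1/d) ∘ G` is invertible
  (Neumann series, e.g. `Units.oneSub` / `NormedRing.inverse_one_sub` in the Banach algebra of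
  operators on `ℓ_∞`), and `α = (diag(1/d) ∘ G)⁻¹ ∘ diag(1/d) ∘ p`.
-/

namespace Pool.Agent.H6.Shai

variable {𝕜 : Type} [RCLike 𝕜]

/-- `m` is bounded by `c` on the functions supported in `A` -/
def Bd (m : LI 𝕜 →L[𝕜] 𝕜) (A : Set ℕ) (c : ℝ) : Prop :=
  ∀ a : LI 𝕜, (∀ i, i ∉ A → a i = 0) → ‖m a‖ ≤ c * ‖a‖

lemma Bd.mono {m : LI 𝕜 →L[𝕜] 𝕜} {A B : Set ℕ} {c d : ℝ} (h : Bd m A c) (hBA : B ⊆ A)
    (hcd : c ≤ d) : Bd m B d := fun a ha =>
  (h a fun i hi => ha i fun hi' => hi (hBA hi')).trans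
    (mul_le_mul_of_nonneg_right hcd (norm_nonneg a))

lemma exists_unimod (z : 𝕜) : ∃ w : 𝕜, ‖w‖ = 1 ∧ w * z = (‖z‖ : 𝕜) := by
  by_cases hz : z = 0
  · exact ⟨1, by simp, by simp [hz]⟩
  · have hz' : (‖z‖ : 𝕜) ≠ 0 := by simpa using hz
    refine ⟨(‖z‖ : 𝕜) / z, ?_, ?_⟩
    · rw [norm_div]
      simp [hz]
    · rw [div_mul_cancel₀ _ hz]

lemma Bd.diff {m : LI 𝕜 →L[𝕜] 𝕜} {A B : Set ℕ} (hAB : Disjoint A B) {c c₁ : ℝ}
    (hA : ¬ Bd m A c₁) (h : Bd m (A ∪ B) c) : Bd m B (c - c₁) := by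
  unfold Bd at hA
  push Not at hA
  obtain ⟨a, ha, hma⟩ := hA
  intro b hb
  have ha0 : a ≠ 0 := by
    rintro rfl
    simp at hma
  have han : 0 < ‖a‖ := norm_pos_iff.2 ha0
  -- rescale
  set t : ℝ := ‖b‖ / ‖a‖ with ht
  have ht0 : 0 ≤ t := by positivity
  have hta : t * ‖a‖ = ‖b‖ := by rw [ht]; field_simp
  obtain ⟨u, hu, hum⟩ := exists_unimod (m a)
  obtain ⟨w, hw, hwm⟩ := exists_unimod (m b)
  set z : LI 𝕜 := ((t : 𝕜) * u) • a + w • b with hz
  have hzs : ∀ i, i ∉ A ∪ B → z i = 0 := by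
    intro i hi
    have h1 : i ∉ A := fun h' => hi (Or.inl h')
    have h2 : i ∉ B := fun h' => hi (Or.inr h')
    rw [hz]
    simp [ha i h1, hb i h2]
  have hzn : ‖z‖ ≤ ‖b‖ := by
    refine (BoundedContinuousFunction.norm_le (norm_nonneg _)).2 fun i => ?_
    by_cases hi : i ∈ A
    · have h2 : i ∉ B := Set.disjoint_left.1 hAB hi
      have h3 : z i = ((t : 𝕜) * u) * a i := by
        rw [hz]
        simp [hb i h2]
      rw [h3, norm_mul, norm_mul, hu, mul_one, RCLike.norm_ofReal, abs_of_nonneg ht0, ← hta]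
      exact mul_le_mul_of_nonneg_left (a.norm_coe_le_norm i) ht0
    · have h3 : z i = w * b i := by
        rw [hz]
        simp [ha i hi]
      rw [h3, norm_mul, hw, one_mul]
      exact b.norm_coe_le_norm i
  have hmz : m z = ((t * ‖m a‖ + ‖m b‖ : ℝ) : 𝕜) := by
    rw [hz, map_add, map_smul, map_smul, smul_eq_mul, smul_eq_mul, mul_assoc, hum, hwm]
    push_cast
    ring
  have hmz' : ‖m z‖ = t * ‖m a‖ + ‖m b‖ := by
    rw [hmz, RCLike.norm_ofReal, abs_of_nonneg (by positivity)]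
  have h4 : t * ‖m a‖ + ‖m b‖ ≤ c * ‖z‖ := by
    rw [← hmz']
    exact h z hzs
  -- `c ≥ 0` unless `b = 0`
  by_cases hb0 : b = 0
  · subst hb0
    simp
  have hbn : 0 < ‖b‖ := norm_pos_iff.2 hb0
  have hc0 : 0 ≤ c := by
    have h5 := h b (fun i hi => hb i fun h' => hi (Or.inr h'))
    by_contra hneg
    push Not at hneg
    have : c * ‖b‖ < 0 := mul_neg_of_neg_of_pos hneg hbn
    have := norm_nonneg (m b)
    linarith
  have h6 : c * ‖z‖ ≤ c * ‖b‖ := mul_le_mul_of_nonneg_left hzn hc0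
  have h7 : c₁ * ‖b‖ ≤ t * ‖m a‖ := by
    rw [← hta]
    calc c₁ * (t * ‖a‖) = t * (c₁ * ‖a‖) := by ring
      _ ≤ t * ‖m a‖ := mul_le_mul_of_nonneg_left hma.le ht0
  rw [sub_mul]
  linarith

lemma rosenthal_aux (m : ℕ → (LI 𝕜 →L[𝕜] 𝕜)) (ε : ℝ) (hε : 0 < ε) (q : ℕ) :
    ∀ N : Set ℕ, N.Infinite → (∀ k ∈ N, Bd (m k) N (q * ε)) →
      ∃ M : Set ℕ, M.Infinite ∧ ∀ k ∈ M, Bd (m k) (M \ {k}) ε := by
  induction q with
  | zero =>
    intro N hN h
    exact ⟨N, hN, fun k hk => (h k hk).mono Set.sdiff_subset (by simpa using hε.le)⟩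
  | succ q ih =>
    intro N hN h
    set ν : ℕ → ℕ := Nat.nth (· ∈ N) with hν
    have hνm : StrictMono ν := Nat.nth_strictMono hN
    have hνN : ∀ i, ν i ∈ N := fun i => Nat.nth_mem_of_infinite hN i
    set Np : ℕ → Set ℕ := fun p => Set.range fun j => ν (Nat.pair p j) with hNp
    have hinf : ∀ p, (Np p).Infinite := fun p =>
      Set.infinite_range_of_injective (hνm.injective.comp fun a b hab =>
        (Nat.pair_eq_pair.1 hab).2)
    have hsub : ∀ p, Np p ⊆ N := by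
      rintro p _ ⟨j, rfl⟩
      exact hνN _
    have hdisj : ∀ p p' k, k ∈ Np p → k ∈ Np p' → p = p' := by
      rintro p p' k ⟨j, rfl⟩ ⟨j', hj'⟩
      exact ((Nat.pair_eq_pair.1 (hνm.injective hj')).1).symm
    by_cases hex : ∃ p, ∀ k ∈ Np p, Bd (m k) (Np p \ {k}) ε
    · obtain ⟨p, hp⟩ := hex
      exact ⟨Np p, hinf p, hp⟩
    · push Not at hex
      choose κ hκ hκ' using hex
      have hκi : Function.Injective κ := fun p p' hpp =>
        hdisj p p' (κ p) (hκ p) (hpp ▸ hκ p')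
      refine ih (Set.range κ) (Set.infinite_range_of_injective hκi) ?_
      rintro _ ⟨p, rfl⟩
      have hd : Disjoint (Np p \ {κ p}) (Set.range κ) := by
        rw [Set.disjoint_left]
        rintro k hk ⟨p', rfl⟩
        have := hdisj p p' (κ p') hk.1 (hκ p')
        subst this
        exact hk.2 rfl
      have hN' : Bd (m (κ p)) ((Np p \ {κ p}) ∪ Set.range κ) (((q + 1 : ℕ) : ℝ) * ε) := by
        refine (h (κ p) (hsub p (hκ p))).mono ?_ le_rfl
        rintro k (hk | ⟨p', rfl⟩)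
        · exact hsub p hk.1
        · exact hsub p' (hκ p')
      refine (Bd.diff hd (hκ' p) hN').mono subset_rfl ?_
      push_cast
      linarith

theorem rosenthal (m : ℕ → (LI 𝕜 →L[𝕜] 𝕜)) (C : ℝ) (hC : ∀ k, ‖m k‖ ≤ C) (ε : ℝ) (hε : 0 < ε) :
    ∃ κ : ℕ → ℕ, StrictMono κ ∧ ∀ (j : ℕ) (a : LI 𝕜), (∀ i, i ∉ Set.range κ → a i = 0) →
      a (κ j) = 0 → ‖m (κ j) a‖ ≤ ε * ‖a‖ := by
  obtain ⟨q, hq⟩ := exists_nat_ge (C / ε)
  have hq' : C ≤ q * ε := by
    rwa [div_le_iff₀ hε] at hq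
  obtain ⟨M, hM, h⟩ := rosenthal_aux m ε hε q Set.univ Set.infinite_univ (by
    intro k _ a _
    exact ((m k).le_opNorm a).trans
      (mul_le_mul_of_nonneg_right ((hC k).trans hq') (norm_nonneg a)))
  refine ⟨Nat.nth (· ∈ M), Nat.nth_strictMono hM, ?_⟩
  intro j a ha haj
  have hr : Set.range (Nat.nth (· ∈ M)) = M := Nat.range_nth_of_infinite hM
  refine h _ (Nat.nth_mem_of_infinite hM j) a ?_
  intro i hi
  by_cases hiM : i ∈ M
  · have : i = Nat.nth (· ∈ M) j := by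
      by_contra hne
      exact hi ⟨hiM, hne⟩
    rw [this]
    exact haj
  · exact ha i (by rwa [hr])

/-- the unit vector `e k` of `ℓ_∞` -/
noncomputable def unitVec (𝕜 : Type) [RCLike 𝕜] (k : ℕ) : LI 𝕜 :=
  BoundedContinuousFunction.ofNormedAddCommGroupDiscrete (fun i => if i = k then 1 else 0) 1
    (fun i => by split_ifs <;> simp)

lemma unitVec_apply (k i : ℕ) : unitVec 𝕜 k i = if i = k then 1 else 0 := rfl

lemma extend_norm_le (κ : ℕ → ℕ) (hκ : Function.Injective κ) (a : LI 𝕜) (i : ℕ) :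
    ‖Function.extend κ (fun j => a j) (fun _ => (0 : 𝕜)) i‖ ≤ ‖a‖ := by
  by_cases h : ∃ j, κ j = i
  · obtain ⟨j, rfl⟩ := h
    rw [hκ.extend_apply]
    exact a.norm_coe_le_norm j
  · rw [Function.extend_apply' _ _ _ h, norm_zero]
    exact norm_nonneg a

/-- extension by zero along `κ` -/
noncomputable def extOp (𝕜 : Type) [RCLike 𝕜] (κ : ℕ → ℕ) (hκ : Function.Injective κ) :
    LI 𝕜 →L[𝕜] LI 𝕜 :=
  LinearMap.mkContinuous
    { toFun := fun a => BoundedContinuousFunction.ofNormedAddCommGroupDiscrete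
        (Function.extend κ (fun j => a j) (fun _ => (0 : 𝕜))) ‖a‖ (extend_norm_le κ hκ a)
      map_add' := by
        intro a b
        ext i
        change Function.extend κ (fun j => (a + b) j) (fun _ => (0 : 𝕜)) i =
          Function.extend κ (fun j => a j) (fun _ => (0 : 𝕜)) i +
          Function.extend κ (fun j => b j) (fun _ => (0 : 𝕜)) i
        by_cases h : ∃ j, κ j = i
        · obtain ⟨j, rfl⟩ := h
          simp only [hκ.extend_apply, BoundedContinuousFunction.coe_add, Pi.add_apply]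
        · simp only [Function.extend_apply' _ _ _ h, add_zero]
      map_smul' := by
        intro c a
        ext i
        change Function.extend κ (fun j => (c • a) j) (fun _ => (0 : 𝕜)) i =
          c • Function.extend κ (fun j => a j) (fun _ => (0 : 𝕜)) i
        by_cases h : ∃ j, κ j = i
        · obtain ⟨j, rfl⟩ := h
          simp only [hκ.extend_apply, BoundedContinuousFunction.coe_smul]
        · simp only [Function.extend_apply' _ _ _ h, smul_zero] } 1 (fun a => by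
    rw [one_mul]
    exact (BoundedContinuousFunction.norm_le (norm_nonneg _)).2 (extend_norm_le κ hκ a))

lemma extOp_apply (κ : ℕ → ℕ) (hκ : Function.Injective κ) (a : LI 𝕜) (j : ℕ) :
    extOp 𝕜 κ hκ a (κ j) = a j := by
  change Function.extend κ (fun j => a j) (fun _ => (0 : 𝕜)) (κ j) = a j
  rw [hκ.extend_apply]

lemma extOp_apply' (κ : ℕ → ℕ) (hκ : Function.Injective κ) (a : LI 𝕜) {i : ℕ}
    (hi : i ∉ Set.range κ) : extOp 𝕜 κ hκ a i = 0 := by
  change Function.extend κ (fun j => a j) (fun _ => (0 : 𝕜)) i = 0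
  rw [Function.extend_apply' _ _ _ hi]

/-- multiplication by a bounded sequence -/
noncomputable def diagOp (d : ℕ → 𝕜) (c : ℝ) (hc : 0 ≤ c) (hd : ∀ j, ‖d j‖ ≤ c) :
    LI 𝕜 →L[𝕜] LI 𝕜 :=
  LinearMap.mkContinuous
    { toFun := fun a => BoundedContinuousFunction.ofNormedAddCommGroupDiscrete
        (fun j => d j * a j) (c * ‖a‖) (fun j => by
          rw [norm_mul]
          exact mul_le_mul (hd j) (a.norm_coe_le_norm j) (norm_nonneg _) hc)
      map_add' := by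
        intro a b
        ext j
        change d j * (a + b) j = d j * a j + d j * b j
        rw [BoundedContinuousFunction.coe_add, Pi.add_apply, mul_add]
      map_smul' := by
        intro s a
        ext j
        change d j * (s * a j) = s * (d j * a j)
        ring } c (fun a => by
    refine (BoundedContinuousFunction.norm_le (mul_nonneg hc (norm_nonneg _))).2 fun j => ?_
    change ‖d j * a j‖ ≤ _
    rw [norm_mul]
    exact mul_le_mul (hd j) (a.norm_coe_le_norm j) (norm_nonneg _) hc)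

lemma diagOp_apply (d : ℕ → 𝕜) (c : ℝ) (hc : 0 ≤ c) (hd : ∀ j, ‖d j‖ ≤ c) (a : LI 𝕜) (j : ℕ) :
    diagOp d c hc hd a j = d j * a j := rfl

/-- a bounded sequence of functionals as an operator to `ℓ_∞` -/
noncomputable def seqOp {X : Type*} [NormedAddCommGroup X] [NormedSpace 𝕜 X]
    (f : ℕ → (X →L[𝕜] 𝕜)) (hf : ∀ k, ‖f k‖ ≤ 1) : X →L[𝕜] LI 𝕜 :=
  LinearMap.mkContinuous
    { toFun := fun x => BoundedContinuousFunction.ofNormedAddCommGroupDiscrete
        (fun j => f j x) ‖x‖ (fun j => by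
          refine ((f j).le_opNorm x).trans ?_
          exact (mul_le_mul_of_nonneg_right (hf j) (norm_nonneg x)).trans (by rw [one_mul]))
      map_add' := by
        intro x y
        ext j
        exact map_add (f j) x y
      map_smul' := by
        intro s x
        ext j
        exact map_smul (f j) s x } 1 (fun x => by
    rw [one_mul]
    refine (BoundedContinuousFunction.norm_le (norm_nonneg _)).2 fun j => ?_
    refine ((f j).le_opNorm x).trans ?_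
    exact (mul_le_mul_of_nonneg_right (hf j) (norm_nonneg x)).trans (by rw [one_mul]))

lemma seqOp_apply {X : Type*} [NormedAddCommGroup X] [NormedSpace 𝕜 X]
    (f : ℕ → (X →L[𝕜] 𝕜)) (hf : ∀ k, ‖f k‖ ≤ 1) (x : X) (j : ℕ) : seqOp f hf x j = f j x := rfl

theorem factor {X : Type*} [NormedAddCommGroup X] [NormedSpace 𝕜 X] (T : X →L[𝕜] X)
    (ι : LI 𝕜 →L[𝕜] X) (f : ℕ → (X →L[𝕜] 𝕜)) (hf : ∀ k, ‖f k‖ ≤ 1) (ε : ℝ) (hε : 0 < ε)
    (h : ∀ k, ε ≤ ‖f k (T (ι (unitVec 𝕜 k)))‖) :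
    ∃ (α : X →L[𝕜] LI 𝕜) (β : LI 𝕜 →L[𝕜] X), α ∘L T ∘L β = ContinuousLinearMap.id 𝕜 (LI 𝕜) := by
  set m : ℕ → (LI 𝕜 →L[𝕜] 𝕜) := fun k => f k ∘L T ∘L ι with hm
  have hmC : ∀ k, ‖m k‖ ≤ ‖T ∘L ι‖ := fun k => by
    refine (ContinuousLinearMap.opNorm_comp_le _ _).trans ?_
    exact (mul_le_mul_of_nonneg_right (hf k) (norm_nonneg _)).trans (by rw [one_mul])
  obtain ⟨κ, hκm, hκ⟩ := rosenthal m _ hmC (ε / 2) (by positivity)
  have hκi := hκm.injective
  set d : ℕ → 𝕜 := fun j => m (κ j) (unitVec 𝕜 (κ j)) with hd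
  have hdε : ∀ j, ε ≤ ‖d j‖ := fun j => h (κ j)
  have hd0 : ∀ j, d j ≠ 0 := fun j => by
    have := (lt_of_lt_of_le hε (hdε j))
    exact norm_pos_iff.1 this
  have hdinv : ∀ j, ‖(d j)⁻¹‖ ≤ ε⁻¹ := fun j => by
    rw [norm_inv]
    exact inv_anti₀ hε (hdε j)
  set Di : LI 𝕜 →L[𝕜] LI 𝕜 := diagOp (fun j => (d j)⁻¹) ε⁻¹ (by positivity) hdinv with hDi
  set β : LI 𝕜 →L[𝕜] X := ι ∘L extOp 𝕜 κ hκi with hβ
  set pr : X →L[𝕜] LI 𝕜 := seqOp (fun j => f (κ j)) (fun j => hf (κ j)) with hpr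
  set K : LI 𝕜 →L[𝕜] LI 𝕜 := Di ∘L pr ∘L T ∘L β with hK
  have hKn : ‖(1 : LI 𝕜 →L[𝕜] LI 𝕜) - K‖ ≤ 1 / 2 := by
    refine ContinuousLinearMap.opNorm_le_bound _ (by norm_num) fun a => ?_
    refine (BoundedContinuousFunction.norm_le (by positivity)).2 fun j => ?_
    -- the rest
    set b : LI 𝕜 := extOp 𝕜 κ hκi a - a j • unitVec 𝕜 (κ j) with hb
    have hbi : ∀ i, b i = extOp 𝕜 κ hκi a i - a j * unitVec 𝕜 (κ j) i := fun i => rfl
    have hb1 : ∀ i, i ∉ Set.range κ → b i = 0 := by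
      intro i hi
      have hne : i ≠ κ j := fun h' => hi ⟨j, h'.symm⟩
      rw [hbi, extOp_apply' κ hκi a hi, unitVec_apply, if_neg hne, mul_zero, sub_zero]
    have hb2 : b (κ j) = 0 := by
      rw [hbi, extOp_apply κ hκi a j, unitVec_apply, if_pos rfl, mul_one, sub_self]
    have hb3 : ‖b‖ ≤ ‖a‖ := by
      refine (BoundedContinuousFunction.norm_le (norm_nonneg _)).2 fun i => ?_
      by_cases hi : i = κ j
      · rw [hi, hb2, norm_zero]
        exact norm_nonneg a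
      · rw [hbi, unitVec_apply, if_neg hi, mul_zero, sub_zero]
        exact extend_norm_le κ hκi a i
    have hKa : K a j = a j + (d j)⁻¹ * m (κ j) b := by
      have h1 : K a j = (d j)⁻¹ * m (κ j) (extOp 𝕜 κ hκi a) := rfl
      have h2 : extOp 𝕜 κ hκi a = a j • unitVec 𝕜 (κ j) + b := by
        rw [hb, add_sub_cancel]
      rw [h1, h2, map_add, map_smul, smul_eq_mul, mul_add]
      congr 1
      change (d j)⁻¹ * (a j * d j) = a j
      rw [mul_comm (a j), inv_mul_cancel_left₀ (hd0 j)]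
    have h3 : ((1 : LI 𝕜 →L[𝕜] LI 𝕜) - K) a j = - ((d j)⁻¹ * m (κ j) b) := by
      have : ((1 : LI 𝕜 →L[𝕜] LI 𝕜) - K) a j = a j - K a j := rfl
      rw [this, hKa]
      ring
    rw [h3, norm_neg, norm_mul]
    calc ‖(d j)⁻¹‖ * ‖m (κ j) b‖ ≤ ε⁻¹ * (ε / 2 * ‖b‖) :=
          mul_le_mul (hdinv j) (hκ j b hb1 hb2) (norm_nonneg _) (by positivity)
      _ = 1 / 2 * ‖b‖ := by field_simp
      _ ≤ 1 / 2 * ‖a‖ := by linarith
  have hlt : ‖(1 : LI 𝕜 →L[𝕜] LI 𝕜) - K‖ < 1 := by linarith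
  set u : (LI 𝕜 →L[𝕜] LI 𝕜)ˣ := Units.oneSub ((1 : LI 𝕜 →L[𝕜] LI 𝕜) - K) hlt with hu
  have huK : (u : LI 𝕜 →L[𝕜] LI 𝕜) = K := by
    rw [hu, Units.val_oneSub, sub_sub_cancel]
  refine ⟨(↑u⁻¹ : LI 𝕜 →L[𝕜] LI 𝕜) ∘L Di ∘L pr, β, ?_⟩
  have h5 : ((↑u⁻¹ : LI 𝕜 →L[𝕜] LI 𝕜) ∘L Di ∘L pr) ∘L T ∘L β = (↑u⁻¹ : LI 𝕜 →L[𝕜] LI 𝕜) * K := rfl
  rw [h5, ← huK, Units.inv_mul]
  rfl

end Pool.Agent.H6.Shai
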