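import Pool.Agent.H6.Shai.Hom

/-!
# A maximal family of disjoint vectors

Proofs (paper).
* `exists_family` : call `y, y'` strongly disjoint if `Φ (P C) y = y` and `Φ (P C) y' = 0` for some
  `C`.  Zorn: take a maximal set `𝒴` of vectors of norm one that are pairwise strongly
  disjoint (in both orders: for distinct `y, y' ∈ 𝒴` there is such a `C`; the relation is
  symmetric, use `Cᶜ` and `P_compl`, `map_id`).  For every infinite `D` there is `y ∈ 𝒴` with
  `Φ (P D) y ≠ 0` : otherwise take `z` with `Φ (P D) z ≠ 0` (exists because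
  `Φ (P D) ≠ 0` by `exists_factor_P`, `map_id`, `Nontrivial Y`), normalise
  `y' = Φ (P D) z / ‖·‖`; `Φ (P D) y' = y'` and `Φ (P D) y = 0` for all `y ∈ 𝒴`, so `y'` could be
  added (and `y' ∉ 𝒴`).  Choose for each infinite `D` a vector `y_D ∈ 𝒴` with
  `Φ (P D) y_D ≠ 0`, let `𝒴'` be the set of the `y_D`; it is the image of a subset of
  `Set ℕ`, so there is an injection of `𝒴'` into `ℕ → Bool`; define `y i` to be the element with
  index `i`, or `0` if there is none.  (If `y i = 0` take `C = ∅`, if `y j = 0` take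
  `C = univ`.)
-/

open Filter Topology

namespace Pool.Agent.H6.Shai

universe u

variable {𝕜 : Type} [RCLike 𝕜] {Y : Type u} [NormedAddCommGroup Y] [NormedSpace 𝕜 Y]

lemma family_map_compl (H : Hom 𝕜 Y) (C : Set ℕ) (y : Y) :
    H.Φ (P Cᶜ) y = y - H.Φ (P C) y := by
  have h1 : H.Φ (P C) y + H.Φ (P Cᶜ) y = y := by
    rw [← add_apply, ← map_add, P_compl, H.map_id]
    rfl
  rw [eq_sub_iff_add_eq, add_comm]
  exact h1

lemma family_map_inter (H : Hom 𝕜 Y) (C D : Set ℕ) (y : Y) :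
    H.Φ (P (C ∩ D)) y = H.Φ (P C) (H.Φ (P D) y) := by
  rw [← P_comp_P, H.map_comp]
  rfl

lemma family_map_empty (H : Hom 𝕜 Y) (y : Y) : H.Φ (P ∅) y = 0 := by
  rw [P_of_finite Set.finite_empty, map_zero]
  rfl

lemma family_map_univ (H : Hom 𝕜 Y) (y : Y) : H.Φ (P Set.univ) y = y := by
  rw [P_univ, H.map_id]
  rfl

/-- strong disjointness -/
def famSD (H : Hom 𝕜 Y) (y y' : Y) : Prop :=
  ∃ C : Set ℕ, H.Φ (P C) y = y ∧ H.Φ (P C) y' = 0

lemma famSD_symm (H : Hom 𝕜 Y) : ∀ y y' : Y, famSD H y y' → famSD H y' y := by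
  rintro y y' ⟨C, h1, h2⟩
  refine ⟨Cᶜ, ?_, ?_⟩
  · rw [family_map_compl, h2, sub_zero]
  · rw [family_map_compl, h1, sub_self]

lemma exists_apply_ne [Nontrivial Y] (H : Hom 𝕜 Y) {D : Set ℕ} (hD : D.Infinite) :
    ∃ z, H.Φ (P D) z ≠ 0 := by
  obtain ⟨A, B, hAB⟩ := exists_factor_P (𝕜 := 𝕜) hD
  obtain ⟨y, hy⟩ := exists_ne (0 : Y)
  refine ⟨H.Φ A y, fun h => hy ?_⟩
  have h1 : H.Φ (B ∘L P D ∘L A) y = y := by
    rw [hAB, H.map_id]
    rfl
  rw [H.map_comp, H.map_comp, ContinuousLinearMap.comp_apply, ContinuousLinearMap.comp_apply,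
    h, map_zero] at h1
  exact h1.symm

theorem exists_family [Nontrivial Y] (H : Hom 𝕜 Y) :
    ∃ y : (ℕ → Bool) → Y, (∀ i, ‖y i‖ ≤ 1) ∧
      (∀ i j, i ≠ j → ∃ C : Set ℕ, H.Φ (P C) (y i) = y i ∧ H.Φ (P C) (y j) = 0) ∧
      ∀ D : Set ℕ, D.Infinite → ∃ i, H.Φ (P D) (y i) ≠ 0 := by
  classical
  obtain ⟨Y0, hY0⟩ := zorn_subset
    {A : Set Y | (∀ y ∈ A, ‖y‖ = 1) ∧ A.Pairwise (famSD H)} (by
    intro c hc hch
    refine ⟨⋃₀ c, ⟨?_, ?_⟩, fun s hs => Set.subset_sUnion_of_mem hs⟩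
    · rintro y ⟨A, hA, hyA⟩
      exact (hc hA).1 y hyA
    · rw [Set.pairwise_sUnion hch.directedOn]
      intro A hA
      exact (hc hA).2)
  obtain ⟨hnorm, hpair⟩ : (∀ y ∈ Y0, ‖y‖ = 1) ∧ Y0.Pairwise (famSD H) := hY0.prop
  have key : ∀ D : Set ℕ, D.Infinite → ∃ y, y ∈ Y0 ∧ H.Φ (P D) y ≠ 0 := by
    intro D hD
    by_contra hcon
    push Not at hcon
    obtain ⟨z, hz⟩ := exists_apply_ne H hD
    set v : Y := H.Φ (P D) z with hv
    have hDv : H.Φ (P D) v = v := by
      rw [hv, ← family_map_inter, Set.inter_self]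
    set y' : Y := ((‖v‖⁻¹ : ℝ) : 𝕜) • v with hy'
    have hn : ‖y'‖ = 1 := by
      rw [hy']
      rw [norm_smul, RCLike.norm_ofReal, abs_of_nonneg (inv_nonneg.2 (norm_nonneg v))]
      exact inv_mul_cancel₀ (norm_ne_zero_iff.2 hz)
    have hDy : H.Φ (P D) y' = y' := by
      rw [hy', map_smul, hDv]
    have hnot : y' ∉ Y0 := by
      intro h
      have h1 := hcon y' h
      rw [hDy] at h1
      rw [h1, norm_zero] at hn
      exact zero_ne_one hn
    have hins : insert y' Y0 ∈ {A : Set Y | (∀ y ∈ A, ‖y‖ = 1) ∧ A.Pairwise (famSD H)} := by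
      refine ⟨?_, ?_⟩
      · intro y hy
        rcases Set.mem_insert_iff.1 hy with rfl | hy
        · exact hn
        · exact hnorm y hy
      · rw [Set.pairwise_insert]
        refine ⟨hpair, fun b hb _ => ?_⟩
        have h1 : famSD H y' b := ⟨D, hDy, hcon b hb⟩
        exact ⟨h1, famSD_symm H _ _ h1⟩
    exact hnot (hY0.le_of_ge hins (Set.subset_insert _ _) (Set.mem_insert _ _))
  choose! f hf1 hf2 using key
  have hg : ∃ g : Y → Set ℕ, ∀ D : Set ℕ, D.Infinite →
      (g (f D)).Infinite ∧ f (g (f D)) = f D := by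
    refine ⟨fun y => if h : ∃ D : Set ℕ, D.Infinite ∧ f D = y then h.choose else ∅, ?_⟩
    intro D hD
    have h : ∃ D' : Set ℕ, D'.Infinite ∧ f D' = f D := ⟨D, hD, rfl⟩
    simp only [h, dif_pos]
    exact h.choose_spec
  obtain ⟨g, hg⟩ := hg
  refine ⟨fun i => if {n | i n = true}.Infinite ∧ g (f {n | i n = true}) = {n | i n = true}
    then f {n | i n = true} else 0, ?_, ?_, ?_⟩
  · intro i
    dsimp only
    split_ifs with h
    · exact (hnorm _ (hf1 _ h.1)).le
    · simp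
  · intro i j hij
    dsimp only
    split_ifs with h1 h2 h2
    · apply hpair (hf1 _ h1.1) (hf1 _ h2.1)
      intro heq
      apply hij
      have h3 : {n | i n = true} = {n | j n = true} := by
        rw [← h1.2, ← h2.2, heq, h2.2]
      funext n
      have h4 : i n = true ↔ j n = true := by
        have := congrArg (fun s : Set ℕ => n ∈ s) h3
        simpa using this
      rw [Bool.eq_iff_iff]
      exact h4
    · exact ⟨Set.univ, family_map_univ H _, by rw [map_zero]⟩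
    · exact ⟨∅, by rw [map_zero], family_map_empty H _⟩
    · exact ⟨∅, by rw [map_zero], by rw [map_zero]⟩
  · intro D hD
    obtain ⟨h1, h2⟩ := hg D hD
    refine ⟨fun n => decide (n ∈ g (f D)), ?_⟩
    have e : {n | (fun n => decide (n ∈ g (f D))) n = true} = g (f D) := by
      ext n
      simp
    dsimp only
    rw [e, h2, if_pos ⟨h1, rfl⟩]
    exact hf2 D hD

end Pool.Agent.H6.Shai
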