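import Pool.Agent.H6.Shai.Hom
import Pool.Agent.H6.Shai.Factor

/-!
# A lift of a rank one operator fixes a disjoint sequence

Proof (paper).
* `exists_fix` : Claim: there is `ε > 0` such that for every `C ∈ u` there are `a : ℓ_∞` with
  `‖a‖ ≤ 1` and `C' ∈ u`, `C' ⊆ C`, with `a = 0` off `C \ C'` and `ε < ‖T (rho a)‖`.
  Otherwise, for each `ε > 0` there is `C ∈ u` with `‖T (rho a)‖ ≤ ε` for all such `a`.  Put
  `T' = T ∘ P C - (evaluation at u).smulRight (T (ind C))`; for `‖x‖ ≤ 1` take (`rho_surj`)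
  `f : ℓ_∞`, `rho f = x - x u • 1`, `‖f‖ ≤ 2`; for `η > 0` let
  `C' = C ∩ {n | ‖f n‖ < η} ∈ u` (`tendsto_rho`, limit `0`);
  `T' x = T (rho (f 1_{C \ C'})) + T (rho (f 1_{C'}))`, the norms are `≤ 2 ε` and `≤ ‖T‖ η`.
  So `‖T'‖ ≤ 2 ε`.  But `Φ T' = Φ T ∘ Φ (P C) - 0 = Φ T` (as `w₀ ∘ Φ (P C) = w₀` for `C ∈ u` by
  `P_compl` and `hw`), so `‖Φ T‖ ≤ 2 ε ‖Φ‖` for all `ε`, hence `Φ T = 0`, contradicting
  `Φ T y₀ = y₀ ≠ 0`.
  From the claim choose recursively `ℕ = C_0 ⊇ C_1 ⊇ …` in `u` and `a_k`, zero off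
  `C_k \ C_{k+1}`, `‖a_k‖ ≤ 1`, `ε < ‖T (rho a_k)‖`.  Define `ι c = rho (m ↦ c_{κ(m)} a_{κ(m)} m)`
  where `κ(m) = k` if `m ∈ C_k \ C_{k+1}` (and `0` if there is no such `k`; there the value is `0`),
  i.e. `ι c = rho (∑_k c_k a_k)` pointwise; it is linear, norm `≤ 1`, and
  `ι (unitVec k) = rho a_k`.  `f k` = norming functional of `T (rho a_k)`
  (`exists_dual_vector''`: `‖f‖ ≤ 1`, `f x = ‖x‖`).
-/

open Filter Topology

namespace Pool.Agent.H6.Shai

universe u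

variable {𝕜 : Type} [RCLike 𝕜] {Y : Type u} [NormedAddCommGroup Y] [NormedSpace 𝕜 Y]

namespace FixAux

open Classical in
/-- restriction of a bounded function to a set -/
noncomputable def res (S : Set ℕ) (f : LI 𝕜) : LI 𝕜 :=
  BoundedContinuousFunction.ofNormedAddCommGroupDiscrete (fun n => if n ∈ S then f n else 0) ‖f‖
    (fun n => by
      split_ifs
      · exact f.norm_coe_le_norm n
      · rw [norm_zero]; exact norm_nonneg _)

open Classical in
lemma res_apply (S : Set ℕ) (f : LI 𝕜) (n : ℕ) : res S f n = if n ∈ S then f n else 0 := rfl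

lemma norm_res_le (S : Set ℕ) (f : LI 𝕜) : ‖res S f‖ ≤ ‖f‖ := by
  refine (BoundedContinuousFunction.norm_le (norm_nonneg _)).2 fun n => ?_
  rw [res_apply]
  split_ifs
  · exact f.norm_coe_le_norm n
  · rw [norm_zero]; exact norm_nonneg _

lemma P_rho (S : Set ℕ) (f : LI 𝕜) : P S (rho f) = rho (res S f) := by
  ext t
  by_cases h : S ∈ t.1
  · rw [P_apply_of_mem h]
    symm
    refine rho_eq ((tendsto_rho f t).congr' ?_)
    filter_upwards [h] with n hn
    rw [res_apply, if_pos hn]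
  · rw [P_apply_of_notMem h]
    symm
    have h' : Sᶜ ∈ t.1 := Ultrafilter.compl_mem_iff_notMem.2 h
    refine rho_eq ((tendsto_const_nhds (x := (0 : 𝕜))).congr' ?_)
    filter_upwards [h'] with n hn
    rw [res_apply, if_neg hn]

lemma P_one (C : Set ℕ) : P C (1 : XX 𝕜) = ind 𝕜 C := by
  ext t
  rw [P, mulOp_apply, ContinuousMap.one_apply, mul_one]

/-- the key claim -/
lemma claim (H : Hom 𝕜 Y) (u : NU) (y₀ : Y) (w₀ : Y →L[𝕜] 𝕜) (h1 : w₀ y₀ = 1)
    (hw : ∀ D : Set ℕ, D ∉ u.1 → ∀ y, w₀ (H.Φ (P D) y) = 0) (T : XX 𝕜 →L[𝕜] XX 𝕜)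
    (hT : H.Φ T = w₀.smulRight y₀) :
    ∃ ε : ℝ, 0 < ε ∧ ∀ C ∈ u.1, ∃ a : LI 𝕜, ‖a‖ ≤ 1 ∧ ∃ C' ∈ u.1, C' ⊆ C ∧
      (∀ n, n ∉ C \ C' → a n = 0) ∧ ε < ‖T (rho a)‖ := by
  by_contra hcon
  push Not at hcon
  have hzero : ∀ ε : ℝ, 0 < ε → ‖H.Φ T‖ ≤ ‖H.Φ‖ * (2 * ε) := by
    intro ε hε
    obtain ⟨C, hC, hbd⟩ := hcon ε hε
    -- homogeneous version of the bound
    have hbd' : ∀ (f : LI 𝕜), ∀ C' ∈ u.1, C' ⊆ C →
        ‖T (rho (res (C \ C') f))‖ ≤ ε * ‖f‖ := by
      intro f C' hC' hsub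
      rcases eq_or_ne ‖f‖ 0 with hf | hf
      · have h0 : ‖res (C \ C') f‖ = 0 :=
          le_antisymm ((norm_res_le _ _).trans hf.le) (norm_nonneg _)
        rw [norm_eq_zero.1 h0]
        simp [hf]
      · have hfpos : 0 < ‖f‖ := lt_of_le_of_ne (norm_nonneg _) (Ne.symm hf)
        have h2 := hbd (((‖f‖⁻¹ : ℝ) : 𝕜) • res (C \ C') f) (by
          rw [norm_smul, RCLike.norm_ofReal, abs_of_pos (inv_pos.2 hfpos)]
          calc ‖f‖⁻¹ * ‖res (C \ C') f‖ ≤ ‖f‖⁻¹ * ‖f‖ :=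
                mul_le_mul_of_nonneg_left (norm_res_le _ _) (inv_pos.2 hfpos).le
            _ = 1 := inv_mul_cancel₀ hf) C' hC' hsub (by
          intro n hn
          rw [BoundedContinuousFunction.smul_apply, res_apply, if_neg hn, smul_zero])
        rw [map_smul, map_smul, norm_smul, RCLike.norm_ofReal,
          abs_of_pos (inv_pos.2 hfpos)] at h2
        rw [inv_mul_le_iff₀ hfpos] at h2
        linarith
    set T' : XX 𝕜 →L[𝕜] XX 𝕜 :=
      T ∘L P C - (ContinuousMap.evalCLM 𝕜 u).smulRight (T (ind 𝕜 C)) with hT'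
    have hT'x : ∀ x, T' x = T (P C (x - x u • 1)) := by
      intro x
      rw [hT', sub_apply, ContinuousLinearMap.comp_apply,
        ContinuousLinearMap.smulRight_apply, map_sub, map_sub, map_smul, map_smul, P_one]
      rfl
    have hnorm : ‖T'‖ ≤ 2 * ε := by
      refine ContinuousLinearMap.opNorm_le_bound _ (by linarith) fun x => ?_
      obtain ⟨f, hf, hfn⟩ := rho_surj (x - x u • (1 : XX 𝕜))
      have hxn : ‖x - x u • (1 : XX 𝕜)‖ ≤ 2 * ‖x‖ := by
        refine (ContinuousMap.norm_le _ (by positivity)).2 fun t => ?_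
        rw [ContinuousMap.sub_apply, ContinuousMap.smul_apply, ContinuousMap.one_apply,
          smul_eq_mul, mul_one]
        calc ‖x t - x u‖ ≤ ‖x t‖ + ‖x u‖ := norm_sub_le _ _
          _ ≤ ‖x‖ + ‖x‖ := add_le_add (x.norm_coe_le_norm t) (x.norm_coe_le_norm u)
          _ = 2 * ‖x‖ := by ring
      have hfn' : ‖f‖ ≤ 2 * ‖x‖ := hfn.trans hxn
      have htend : Tendsto f u.1 (𝓝 0) := by
        have := tendsto_rho f u
        rw [hf] at this
        simpa using this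
      have hmain : ∀ η : ℝ, 0 < η → ‖T' x‖ ≤ 2 * ε * ‖x‖ + ‖T‖ * η := by
        intro η hη
        set C' : Set ℕ := C ∩ {n | ‖f n‖ < η} with hC'
        have hC'u : C' ∈ u.1 := by
          refine inter_mem hC ?_
          have h3 := (Metric.tendsto_nhds.1 htend) η hη
          have h3' : {n | dist (f n) 0 < η} ∈ (u.1 : Filter ℕ) := h3
          have h3'' : {n | ‖f n‖ < η} = {n | dist (f n) 0 < η} := by
            ext n
            simp only [Set.mem_ofPred_eq, dist_zero_right]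
          rw [h3'']
          exact h3'
        have hsplit : res C f = res (C \ C') f + res C' f := by
          ext n
          rw [BoundedContinuousFunction.add_apply, res_apply, res_apply, res_apply]
          by_cases h4 : n ∈ C
          · by_cases h5 : n ∈ C'
            · rw [if_pos h4, if_neg (fun h => h.2 h5), if_pos h5, zero_add]
            · rw [if_pos h4, if_pos ⟨h4, h5⟩, if_neg h5, add_zero]
          · rw [if_neg h4, if_neg (fun h => h4 h.1), if_neg (fun h => h4 h.1), add_zero]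
        have hsmall : ‖res C' f‖ ≤ η := by
          refine (BoundedContinuousFunction.norm_le hη.le).2 fun n => ?_
          rw [res_apply]
          split_ifs with h5
          · exact le_of_lt h5.2
          · rw [norm_zero]; exact hη.le
        rw [hT'x, ← hf, P_rho, hsplit, map_add, map_add]
        refine (norm_add_le _ _).trans (add_le_add ?_ ?_)
        · refine (hbd' f C' hC'u Set.inter_subset_left).trans ?_
          calc ε * ‖f‖ ≤ ε * (2 * ‖x‖) := mul_le_mul_of_nonneg_left hfn' hε.le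
            _ = 2 * ε * ‖x‖ := by ring
        · refine (T.le_opNorm _).trans ?_
          exact mul_le_mul_of_nonneg_left ((norm_rho_le _).trans hsmall) (norm_nonneg _)
      refine le_of_forall_pos_le_add fun δ hδ => ?_
      have h6 := hmain (δ / (‖T‖ + 1)) (by positivity)
      refine h6.trans (add_le_add le_rfl ?_)
      rw [mul_div_assoc']
      rw [div_le_iff₀ (by positivity)]
      nlinarith [norm_nonneg T]
    have hwC : ∀ y, w₀ (H.Φ (P C) y) = w₀ y := by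
      intro y
      have h7 : H.Φ (P C) + H.Φ (P Cᶜ) = ContinuousLinearMap.id 𝕜 Y := by
        rw [← map_add, P_compl, H.map_id]
      have h8 : H.Φ (P C) y + H.Φ (P Cᶜ) y = y := by
        have := congrArg (fun A : Y →L[𝕜] Y => A y) h7
        simpa using this
      have h9 : w₀ (H.Φ (P Cᶜ) y) = 0 := hw Cᶜ (by
        intro h
        exact (Ultrafilter.compl_mem_iff_notMem.1 h) hC) y
      calc w₀ (H.Φ (P C) y) = w₀ (H.Φ (P C) y) + w₀ (H.Φ (P Cᶜ) y) := by rw [h9, add_zero]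
        _ = w₀ (H.Φ (P C) y + H.Φ (P Cᶜ) y) := (map_add _ _ _).symm
        _ = w₀ y := by rw [h8]
    have hΦ : H.Φ T' = H.Φ T := by
      rw [hT', map_sub, H.map_finrank, sub_zero, H.map_comp]
      ext y
      rw [ContinuousLinearMap.comp_apply, hT, ContinuousLinearMap.smulRight_apply,
        ContinuousLinearMap.smulRight_apply, hwC]
    rw [← hΦ]
    exact (H.Φ.le_opNorm _).trans (mul_le_mul_of_nonneg_left hnorm (norm_nonneg _))
  have hT0 : H.Φ T = 0 := by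
    rw [← norm_le_zero_iff]
    refine le_of_forall_pos_le_add fun δ hδ => ?_
    have h6 := hzero (δ / (2 * (‖H.Φ‖ + 1))) (by positivity)
    refine h6.trans ?_
    rw [zero_add]
    have h7 : ‖H.Φ‖ * (2 * (δ / (2 * (‖H.Φ‖ + 1)))) = ‖H.Φ‖ * δ / (‖H.Φ‖ + 1) := by
      field_simp
    rw [h7, div_le_iff₀ (by positivity)]
    nlinarith [norm_nonneg H.Φ]
  have h8 : H.Φ T y₀ = y₀ := by
    rw [hT, ContinuousLinearMap.smulRight_apply, h1, one_smul]
  rw [hT0] at h8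
  have h9 : y₀ = 0 := by rw [← h8]; rfl
  rw [h9, map_zero] at h1
  exact zero_ne_one h1

end FixAux

open FixAux in
lemma exists_fix (H : Hom 𝕜 Y) (u : NU) (y₀ : Y) (w₀ : Y →L[𝕜] 𝕜) (h1 : w₀ y₀ = 1)
    (hw : ∀ D : Set ℕ, D ∉ u.1 → ∀ y, w₀ (H.Φ (P D) y) = 0) (T : XX 𝕜 →L[𝕜] XX 𝕜)
    (hT : H.Φ T = w₀.smulRight y₀) :
    ∃ (ι : LI 𝕜 →L[𝕜] XX 𝕜) (f : ℕ → (XX 𝕜 →L[𝕜] 𝕜)) (ε : ℝ), 0 < ε ∧ (∀ k, ‖f k‖ ≤ 1) ∧
      ∀ k, ε ≤ ‖f k (T (ι (unitVec 𝕜 k)))‖ := by
  classical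
  obtain ⟨ε, hε, hcl⟩ := claim H u y₀ w₀ h1 hw T hT
  choose A hA1 F hFu hFC hA0 hAε using hcl
  -- the decreasing sequence of sets
  let nxt : {C : Set ℕ // C ∈ u.1} → {C : Set ℕ // C ∈ u.1} := fun C => ⟨F C.1 C.2, hFu C.1 C.2⟩
  let Cs : ℕ → {C : Set ℕ // C ∈ u.1} := fun k => nxt^[k] ⟨Set.univ, univ_mem⟩
  have hCs : ∀ k, (Cs (k + 1)).1 = F (Cs k).1 (Cs k).2 := by
    intro k
    have : Cs (k + 1) = nxt (Cs k) := Function.iterate_succ_apply' nxt k _
    rw [this]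
  have hanti : Antitone fun k => (Cs k).1 := by
    refine antitone_nat_of_succ_le fun k => ?_
    rw [hCs]
    exact hFC _ _
  let a : ℕ → LI 𝕜 := fun k => A (Cs k).1 (Cs k).2
  have ha1 : ∀ k, ‖a k‖ ≤ 1 := fun k => hA1 _ _
  have ha0 : ∀ k m, m ∉ (Cs k).1 \ (Cs (k + 1)).1 → a k m = 0 := by
    intro k m hm
    rw [hCs] at hm
    exact hA0 _ _ m hm
  have haε : ∀ k, ε < ‖T (rho (a k))‖ := fun k => hAε _ _
  let κ : ℕ → ℕ := fun m =>
    if h : ∃ k, m ∈ (Cs k).1 \ (Cs (k + 1)).1 then h.choose else 0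
  have hκ : ∀ k m, m ∈ (Cs k).1 \ (Cs (k + 1)).1 → κ m = k := by
    intro k m hm
    have hex : ∃ k, m ∈ (Cs k).1 \ (Cs (k + 1)).1 := ⟨k, hm⟩
    have h2 : κ m = hex.choose := dif_pos hex
    have h3 := hex.choose_spec
    rw [← h2] at h3
    by_contra hne
    rcases lt_or_gt_of_ne hne with hlt | hgt
    · exact h3.2 (hanti (Nat.succ_le_of_lt hlt) hm.1)
    · exact hm.2 (hanti (Nat.succ_le_of_lt hgt) h3.1)
  let b : ℕ → 𝕜 := fun m => a (κ m) m
  have hb : ∀ m, ‖b m‖ ≤ 1 := fun m => ((a (κ m)).norm_coe_le_norm m).trans (ha1 _)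
  have hcb : ∀ (c : LI 𝕜) (m : ℕ), ‖c (κ m) * b m‖ ≤ ‖c‖ := by
    intro c m
    rw [norm_mul]
    calc ‖c (κ m)‖ * ‖b m‖ ≤ ‖c‖ * 1 :=
          mul_le_mul (c.norm_coe_le_norm _) (hb m) (norm_nonneg _) (norm_nonneg _)
      _ = ‖c‖ := mul_one _
  let G : LI 𝕜 →L[𝕜] LI 𝕜 := LinearMap.mkContinuous
    { toFun := fun c => BoundedContinuousFunction.ofNormedAddCommGroupDiscrete
        (fun m => c (κ m) * b m) ‖c‖ (hcb c)
      map_add' := by
        intro c d
        ext m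
        change (c + d) (κ m) * b m = c (κ m) * b m + d (κ m) * b m
        rw [BoundedContinuousFunction.add_apply, add_mul]
      map_smul' := by
        intro t c
        ext m
        change (t • c) (κ m) * b m = t • (c (κ m) * b m)
        rw [BoundedContinuousFunction.smul_apply, smul_mul_assoc] } 1 (by
    intro c
    rw [one_mul]
    exact (BoundedContinuousFunction.norm_le (norm_nonneg _)).2 fun m => hcb c m)
  have hG : ∀ k, G (unitVec 𝕜 k) = a k := by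
    intro k
    ext m
    change (if κ m = k then (1 : 𝕜) else 0) * b m = a k m
    by_cases hm : κ m = k
    · rw [if_pos hm, one_mul]
      change a (κ m) m = a k m
      rw [hm]
    · rw [if_neg hm, zero_mul]
      symm
      refine ha0 k m fun h => hm (hκ k m h)
  have hdual : ∀ k, ∃ g : XX 𝕜 →L[𝕜] 𝕜, ‖g‖ ≤ 1 ∧ g (T (rho (a k))) = ‖T (rho (a k))‖ :=
    fun k => exists_dual_vector'' 𝕜 (T (rho (a k)))
  choose f hf1 hf2 using hdual
  refine ⟨rho ∘L G, f, ε, hε, hf1, fun k => ?_⟩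
  rw [ContinuousLinearMap.comp_apply, hG, hf2, RCLike.norm_ofReal, abs_of_nonneg (norm_nonneg _)]
  exact (haε k).le

end Pool.Agent.H6.Shai
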