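import Pool.Agent.H6.Shai.Basic

/-!
# Homomorphisms from `B(C(ℕ*))` onto `B(Y)`

Proofs (paper).
* `map_id` : `Φ S = id` for some `S`; `Φ id = Φ id ∘ Φ S = Φ (id ∘ S) = Φ S = id`.
* `map_finrank` : the kernel contains `A ≠ 0`; choose `x₀` with `A x₀ ≠ 0` and
  `g : XX →L 𝕜` with `g (A x₀) = 1`.  For `x, f`:
  `f.smulRight x = (g.smulRight x) ∘ A ∘ (f.smulRight x₀)`.
* `exists_lift` : open mapping theorem (`ContinuousLinearMap.exists_preimage_norm_le`).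
* `upper` : choose `y₀`, `w₀` with `w₀ y₀ = 1` (Hahn–Banach, `Y` nontrivial).  For each `i` lift
  `w₀.smulRight (y i)` (norm `≤ ‖w₀‖ b`) to `S i` with `‖S i‖ ≤ M ‖w₀‖ b`.  Then
  `S = ∑ P (C i) ∘ S i` has norm `≤ M ‖w₀‖ b` (`norm_sum_P_comp_le`), and
  `Φ S y₀ = ∑ Φ (P (C i)) (y i) = ∑ y i`.
* `exists_point` : claim: there are `u : NU`, `y : Y`, `η > 0` with `η ≤ ‖Φ (P C) y‖` for all
  `C ∈ u`.  Otherwise take `y ≠ 0`, `ε > 0`; for each `u` choose `C_u ∈ u` with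
  `‖Φ (P C_u) y‖ < ε`; by compactness finitely many of the open sets `{t | C_u ∈ t}` cover `NU`;
  disjointify to `C'_1, …, C'_n` (subsets of the `C_u`), whose union has finite complement (a
  nonprincipal ultrafilter containing the complement would not be covered), so
  `y = ∑ Φ (P C'_i) y`, `‖Φ (P C'_i) y‖ = ‖Φ (P C'_i) (Φ (P C_u) y)‖ ≤ ‖Φ‖ ε`, and by `upper`
  `‖y‖ ≤ M ‖Φ‖ ε` for all `ε`; contradiction.
  Then let `N = {z | ∃ C ∈ u, Φ (P C) z = 0}` (a subspace); for `z ∈ N`,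
  `η ≤ ‖Φ (P C) y‖ = ‖Φ (P C) (y - z)‖ ≤ ‖Φ‖ ‖y - z‖`.  So `y ∉ closure N` and Hahn–Banach
  gives `w₀` vanishing on `N` with `w₀ y = 1`.  For `D ∉ u`: `Φ (P D) z ∈ N` since `Dᶜ ∈ u`,
  `P Dᶜ ∘ P D = P ∅ = 0`.
-/

open Filter Topology

namespace Pool.Agent.H6.Shai

universe u

variable {𝕜 : Type} [RCLike 𝕜]

/-- a continuous surjective homomorphism `B(C(ℕ*)) → B(Y)` with nonzero kernel -/
structure Hom (𝕜 : Type) [RCLike 𝕜] (Y : Type u) [NormedAddCommGroup Y] [NormedSpace 𝕜 Y] where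
  /-- the underlying map -/
  Φ : (XX 𝕜 →L[𝕜] XX 𝕜) →L[𝕜] (Y →L[𝕜] Y)
  map_comp : ∀ A B : XX 𝕜 →L[𝕜] XX 𝕜, Φ (A ∘L B) = Φ A ∘L Φ B
  surj : Function.Surjective Φ
  ker : ∃ A, A ≠ 0 ∧ Φ A = 0

namespace Hom

variable {Y : Type u} [NormedAddCommGroup Y] [NormedSpace 𝕜 Y]

lemma map_id (H : Hom 𝕜 Y) : H.Φ (ContinuousLinearMap.id 𝕜 _) = ContinuousLinearMap.id 𝕜 _ := by
  obtain ⟨S, hS⟩ := H.surj (ContinuousLinearMap.id 𝕜 Y)
  have h := H.map_comp (ContinuousLinearMap.id 𝕜 _) S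
  rw [ContinuousLinearMap.id_comp, hS, ContinuousLinearMap.comp_id] at h
  exact h.symm

lemma map_comp_apply (H : Hom 𝕜 Y) (A B : XX 𝕜 →L[𝕜] XX 𝕜) (y : Y) :
    H.Φ (A ∘L B) y = H.Φ A (H.Φ B y) := by rw [H.map_comp]; rfl

lemma map_id_apply (H : Hom 𝕜 Y) (y : Y) : H.Φ (ContinuousLinearMap.id 𝕜 _) y = y := by
  rw [H.map_id]; rfl

lemma map_P_P (H : Hom 𝕜 Y) (C D : Set ℕ) (y : Y) :
    H.Φ (P C) (H.Φ (P D) y) = H.Φ (P (C ∩ D)) y := by
  rw [← H.map_comp_apply, P_comp_P]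

lemma map_P_add_compl (H : Hom 𝕜 Y) (C : Set ℕ) (y : Y) :
    H.Φ (P C) y + H.Φ (P Cᶜ) y = y := by
  rw [← add_apply, ← map_add, P_compl, H.map_id_apply]

lemma map_P_of_finite (H : Hom 𝕜 Y) {D : Set ℕ} (h : D.Finite) (y : Y) :
    H.Φ (P D) y = 0 := by
  rw [P_of_finite h, map_zero]; rfl

lemma norm_map_P_le (H : Hom 𝕜 Y) (C : Set ℕ) (y : Y) : ‖H.Φ (P C) y‖ ≤ ‖H.Φ‖ * ‖y‖ := by
  refine ((H.Φ (P C)).le_opNorm y).trans (mul_le_mul_of_nonneg_right ?_ (norm_nonneg _))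
  refine (H.Φ.le_opNorm _).trans ?_
  have := mul_le_mul_of_nonneg_left (norm_P_le (𝕜 := 𝕜) C) (norm_nonneg H.Φ)
  simpa using this

lemma map_finrank (H : Hom 𝕜 Y) (f : XX 𝕜 →L[𝕜] 𝕜) (x : XX 𝕜) : H.Φ (f.smulRight x) = 0 := by
  obtain ⟨A, hA0, hA⟩ := H.ker
  obtain ⟨x₀, hx₀⟩ : ∃ x₀, A x₀ ≠ 0 := by
    by_contra hcon
    push Not at hcon
    exact hA0 (ContinuousLinearMap.ext hcon)
  obtain ⟨g, hg⟩ := SeparatingDual.exists_eq_one (R := 𝕜) hx₀
  have h : f.smulRight x = (g.smulRight x) ∘L (A ∘L (f.smulRight x₀)) := by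
    ext1 z
    simp only [ContinuousLinearMap.comp_apply, ContinuousLinearMap.smulRight_apply, map_smul,
      hg, one_smul]
  rw [h, H.map_comp, H.map_comp, hA, ContinuousLinearMap.zero_comp, ContinuousLinearMap.comp_zero]

lemma exists_lift [CompleteSpace Y] (H : Hom 𝕜 Y) :
    ∃ M : ℝ, 0 < M ∧ ∀ B, ∃ S, H.Φ S = B ∧ ‖S‖ ≤ M * ‖B‖ :=
  ContinuousLinearMap.exists_preimage_norm_le (E := XX 𝕜 →L[𝕜] XX 𝕜) (F := Y →L[𝕜] Y) H.Φ H.surj

lemma norm_pos [Nontrivial Y] (H : Hom 𝕜 Y) : 0 < ‖H.Φ‖ := by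
  refine lt_of_le_of_ne (ContinuousLinearMap.opNorm_nonneg H.Φ) fun h0 => ?_
  obtain ⟨y', hy'⟩ := exists_ne (0 : Y)
  have h1 := H.norm_map_P_le Set.univ y'
  rw [P_univ, H.map_id_apply, ← h0, zero_mul] at h1
  exact hy' (norm_le_zero_iff.1 h1)

lemma upper [CompleteSpace Y] [Nontrivial Y] (H : Hom 𝕜 Y) : ∃ M : ℝ, 0 < M ∧
    ∀ (ι : Type) (s : Finset ι) (C : ι → Set ℕ)
      (_ : ∀ i ∈ s, ∀ j ∈ s, i ≠ j → Disjoint (C i) (C j)) (y : ι → Y)
      (_ : ∀ i ∈ s, H.Φ (P (C i)) (y i) = y i) (b : ℝ) (_ : 0 ≤ b) (_ : ∀ i ∈ s, ‖y i‖ ≤ b),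
      ‖∑ i ∈ s, y i‖ ≤ M * b := by
  classical
  obtain ⟨M, hM, hlift⟩ := H.exists_lift
  obtain ⟨y₀, hy₀⟩ := exists_ne (0 : Y)
  obtain ⟨w₀, hw₀⟩ := SeparatingDual.exists_eq_one (R := 𝕜) hy₀
  refine ⟨‖H.Φ‖ * (M * ‖w₀‖) * ‖y₀‖ + 1, by positivity, ?_⟩
  intro ι s C hC y hy b hb hyb
  choose S hS1 hS2 using fun i => hlift (w₀.smulRight (y i))
  have hS3 : ∀ i ∈ s, ‖S i‖ ≤ M * ‖w₀‖ * b := by
    intro i hi
    refine (hS2 i).trans ?_
    rw [ContinuousLinearMap.norm_smulRight_apply, mul_assoc]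
    exact mul_le_mul_of_nonneg_left (mul_le_mul_of_nonneg_left (hyb i hi) (norm_nonneg _)) hM.le
  have h1 := norm_sum_P_comp_le s C hC S (M * ‖w₀‖ * b) (by positivity) hS3
  have h2 : H.Φ (∑ i ∈ s, P (C i) ∘L S i) y₀ = ∑ i ∈ s, y i := by
    rw [map_sum, sum_apply]
    refine Finset.sum_congr rfl fun i hi => ?_
    rw [H.map_comp_apply, hS1, ContinuousLinearMap.smulRight_apply, hw₀, one_smul, hy i hi]
  rw [← h2]
  calc ‖H.Φ (∑ i ∈ s, P (C i) ∘L S i) y₀‖ ≤ ‖H.Φ (∑ i ∈ s, P (C i) ∘L S i)‖ * ‖y₀‖ :=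
        ContinuousLinearMap.le_opNorm _ _
    _ ≤ (‖H.Φ‖ * ‖∑ i ∈ s, P (C i) ∘L S i‖) * ‖y₀‖ :=
        mul_le_mul_of_nonneg_right (ContinuousLinearMap.le_opNorm _ _) (norm_nonneg _)
    _ ≤ (‖H.Φ‖ * (M * ‖w₀‖ * b)) * ‖y₀‖ := by gcongr
    _ = ‖H.Φ‖ * (M * ‖w₀‖) * ‖y₀‖ * b := by ring
    _ ≤ (‖H.Φ‖ * (M * ‖w₀‖) * ‖y₀‖ + 1) * b := by
        refine mul_le_mul_of_nonneg_right (by linarith) hb

lemma exists_point [CompleteSpace Y] [Nontrivial Y] (H : Hom 𝕜 Y) :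
    ∃ (u : NU) (y₀ : Y) (w₀ : Y →L[𝕜] 𝕜), w₀ y₀ = 1 ∧
      ∀ D : Set ℕ, D ∉ u.1 → ∀ y, w₀ (H.Φ (P D) y) = 0 := by
  classical
  obtain ⟨M, hM, hup⟩ := H.upper
  -- a point where some vector does not vanish
  have key : ∃ (u : NU) (y : Y) (η : ℝ), 0 < η ∧ ∀ C : Set ℕ, C ∈ u.1 → η ≤ ‖H.Φ (P C) y‖ := by
    by_contra hcon
    push Not at hcon
    obtain ⟨y, hy⟩ := exists_ne (0 : Y)
    have hsmall : ∀ ε : ℝ, 0 < ε → ‖y‖ ≤ M * (‖H.Φ‖ * ε) := by
      intro ε hε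
      choose C hC1 hC2 using fun u => hcon u y ε hε
      have hopen : ∀ u : NU, IsOpen {t : NU | C u ∈ t.1} := fun u =>
        (ultrafilter_isOpen_basic (C u)).preimage continuous_subtype_val
      obtain ⟨F, hF⟩ := isCompact_univ.elim_finite_subcover (fun u : NU => {t : NU | C u ∈ t.1})
        hopen (fun t _ => Set.mem_iUnion.2 ⟨t, hC1 t⟩)
      -- enumerate `F`
      obtain ⟨n, e, he⟩ : ∃ (n : ℕ) (e : ℕ → NU), ∀ t : NU, ∃ i < n, C (e i) ∈ t.1 := by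
        refine ⟨F.toList.length, fun i => F.toList.getD i ⟨hyperfilter ℕ, hyperfilter_le_cofinite⟩,
          fun t => ?_⟩
        have := hF (Set.mem_univ t)
        simp only [Set.mem_iUnion] at this
        obtain ⟨u, hu, hut⟩ := this
        obtain ⟨i, hi, hiu⟩ := List.getElem_of_mem (Finset.mem_toList.2 hu)
        refine ⟨i, hi, ?_⟩
        have h5 : F.toList.getD i ⟨hyperfilter ℕ, hyperfilter_le_cofinite⟩ = u := by
          rw [List.getD_eq_getElem _ _ hi, hiu]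
        change C (F.toList.getD i ⟨hyperfilter ℕ, hyperfilter_le_cofinite⟩) ∈ t.1
        rw [h5]
        exact hut
      have hcof : (⋃ i ∈ Finset.range n, C (e i))ᶜ.Finite := by
        by_contra hinf
        obtain ⟨t, ht⟩ := exists_NU (Set.not_finite.1 hinf)
        obtain ⟨i, hi, hit⟩ := he t
        have : (⋃ i ∈ Finset.range n, C (e i)) ∈ t.1 :=
          mem_of_superset hit (fun x hx => Set.mem_biUnion (Finset.mem_range.2 hi) hx)
        exact (Ultrafilter.compl_mem_iff_notMem.1 ht) this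
      let D : ℕ → Set ℕ := fun i => C (e i) \ ⋃ j ∈ Finset.range i, C (e j)
      have hDdisj : ∀ i ∈ Finset.range n, ∀ j ∈ Finset.range n, i ≠ j → Disjoint (D i) (D j) := by
        have haux : ∀ i j, i < j → Disjoint (D i) (D j) := by
          intro i j hij
          rw [Set.disjoint_left]
          intro x hx hx'
          exact hx'.2 (Set.mem_biUnion (Finset.mem_range.2 hij) hx.1)
        intro i _ j _ hij
        rcases lt_or_gt_of_ne hij with h | h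
        · exact haux i j h
        · exact (haux j i h).symm
      have hsum : ∀ k, ∑ i ∈ Finset.range k, (P (D i) : XX 𝕜 →L[𝕜] XX 𝕜) =
          P (⋃ i ∈ Finset.range k, C (e i)) := by
        intro k
        induction k with
        | zero =>
          simp only [Finset.range_zero, Finset.sum_empty, Finset.notMem_empty, Set.iUnion_of_empty,
            Set.iUnion_empty]
          rw [P_of_finite Set.finite_empty]
        | succ k ih =>
          rw [Finset.sum_range_succ, ih]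
          have : (⋃ i ∈ Finset.range (k + 1), C (e i)) =
              (⋃ i ∈ Finset.range k, C (e i)) ∪ D k := by
            rw [Finset.range_add_one, Finset.set_biUnion_insert, Set.union_comm]
            exact (Set.union_sdiff_self).symm
          rw [this, P_union]
          exact Set.disjoint_left.2 fun x hx hx' => hx'.2 hx
      have hy' : ∑ i ∈ Finset.range n, H.Φ (P (D i)) y = y := by
        have h1 : (P (⋃ i ∈ Finset.range n, C (e i)) : XX 𝕜 →L[𝕜] XX 𝕜) =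
            ContinuousLinearMap.id 𝕜 _ := by
          rw [← P_univ]
          refine P_congr (by simp) ?_
          rwa [← Set.compl_eq_univ_sdiff]
        have h2 := congrArg (fun S => H.Φ S y) ((hsum n).trans h1)
        simp only [map_sum, sum_apply, H.map_id_apply] at h2
        exact h2
      have h3 := hup ℕ (Finset.range n) D hDdisj (fun i => H.Φ (P (D i)) y)
        (fun i _ => by rw [H.map_P_P, Set.inter_self]) (‖H.Φ‖ * ε) (by positivity)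
        (fun i _ => by
          have h4 : H.Φ (P (D i)) y = H.Φ (P (D i)) (H.Φ (P (C (e i))) y) := by
            rw [H.map_P_P, Set.inter_eq_left.2 Set.sdiff_subset]
          rw [h4]
          refine (H.norm_map_P_le _ _).trans ?_
          exact mul_le_mul_of_nonneg_left (hC2 (e i)).le H.norm_pos.le)
      rwa [hy'] at h3
    have hynorm : 0 < ‖y‖ := norm_pos_iff.2 hy
    have h1 := hsmall (‖y‖ / (2 * (M * ‖H.Φ‖ + 1))) (by positivity)
    have h2 : M * (‖H.Φ‖ * (‖y‖ / (2 * (M * ‖H.Φ‖ + 1)))) < ‖y‖ := by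
      have h3 : 0 ≤ M * ‖H.Φ‖ := by positivity
      have h4 : M * (‖H.Φ‖ * (‖y‖ / (2 * (M * ‖H.Φ‖ + 1)))) =
          (M * ‖H.Φ‖) * ‖y‖ / (2 * (M * ‖H.Φ‖ + 1)) := by ring
      rw [h4, div_lt_iff₀ (by positivity)]
      nlinarith
    linarith
  obtain ⟨u, y, η, hη, hy⟩ := key
  let N : Submodule 𝕜 Y :=
    { carrier := {z | ∃ C : Set ℕ, C ∈ u.1 ∧ H.Φ (P C) z = 0}
      zero_mem' := ⟨Set.univ, univ_mem, map_zero _⟩
      add_mem' := by
        rintro a b ⟨C, hC, hCa⟩ ⟨D, hD, hDb⟩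
        refine ⟨C ∩ D, inter_mem hC hD, ?_⟩
        have e1 : H.Φ (P (C ∩ D)) b = 0 := by rw [← H.map_P_P, hDb, map_zero]
        have e2 : H.Φ (P (C ∩ D)) a = 0 := by rw [Set.inter_comm, ← H.map_P_P, hCa, map_zero]
        rw [map_add, e1, e2, add_zero]
      smul_mem' := by
        rintro c a ⟨C, hC, hCa⟩
        exact ⟨C, hC, by rw [map_smul, hCa, smul_zero]⟩ }
  have hΦ : 0 < ‖H.Φ‖ := H.norm_pos
  have hdist : ∀ z ∈ N, η / ‖H.Φ‖ ≤ ‖y - z‖ := by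
    rintro z ⟨C, hC, hz⟩
    rw [div_le_iff₀ hΦ]
    calc η ≤ ‖H.Φ (P C) y‖ := hy C hC
      _ = ‖H.Φ (P C) (y - z)‖ := by rw [map_sub, hz, sub_zero]
      _ ≤ ‖H.Φ‖ * ‖y - z‖ := H.norm_map_P_le _ _
      _ = ‖y - z‖ * ‖H.Φ‖ := mul_comm _ _
  have hnot : y ∉ N.topologicalClosure := by
    intro hmem
    rw [← SetLike.mem_coe, Submodule.topologicalClosure_coe, Metric.mem_closure_iff] at hmem
    obtain ⟨z, hz, hzd⟩ := hmem (η / ‖H.Φ‖) (by positivity)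
    rw [dist_eq_norm] at hzd
    exact absurd hzd (not_lt.2 (hdist z hz))
  -- Hahn–Banach in the quotient
  have hcl : IsClosed (N.topologicalClosure : Set Y) := N.isClosed_topologicalClosure
  have hq : N.topologicalClosure.mkQL y ≠ 0 := by
    intro h
    exact hnot ((Submodule.Quotient.mk_eq_zero _).1 h)
  obtain ⟨g, hg⟩ := SeparatingDual.exists_eq_one (R := 𝕜) hq
  refine ⟨u, y, g ∘L N.topologicalClosure.mkQL, hg, fun D hD z => ?_⟩
  have hmem : H.Φ (P D) z ∈ N := by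
    refine ⟨Dᶜ, Ultrafilter.compl_mem_iff_notMem.2 hD, ?_⟩
    rw [H.map_P_P, Set.compl_inter_self]
    exact H.map_P_of_finite Set.finite_empty z
  have h0 : N.topologicalClosure.mkQL (H.Φ (P D) z) = 0 :=
    (Submodule.Quotient.mk_eq_zero _).2 (N.le_topologicalClosure hmem)
  rw [ContinuousLinearMap.comp_apply, h0, map_zero]

end Hom

end Pool.Agent.H6.Shai
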