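import Pool.Agent.H6.Shai.Defs

/-!
# Orthonormal functionals on `ℓ_∞`

Proof (paper).  Let `Q = Σ n, ((Fin n → Bool) → Bool)` (countable; use an encoding into `ℕ`, or
any equivalence `Q ≃ ℕ`), `r ξ (n, g) = ±1` according to `g (ξ restricted to Fin n)`.  For each `n`
let `λ_n` be the uniform probability on `{n} × ((Fin n → Bool) → Bool)` and
`l_n ξ a = ∫ a r_ξ dλ_n = (1 / N_n) ∑_g a (n, g) r_ξ (n, g)`.  If `ξ` and `η` differ on `Fin n`
then `∫ r_ξ r_η dλ_n = 0` (the two coordinates of `g` are independent; pair `g` with `g` flipped at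
`ξ|n`), and `∫ r_ξ ^ 2 dλ_n = 1`.  Take a nonprincipal ultrafilter `𝔘` on `ℕ` (`Filter.hyperfilter`)
and `l ξ a = lim_{n → 𝔘} l_n ξ a` (bounded by `‖a‖`; limits exist as closed balls of `𝕜` are
compact).  Bessel: for a finite set `F` and all large `n` the `r_ξ`, `ξ ∈ F`, are orthonormal for
`λ_n`, so `∑_{ξ ∈ F} ‖l_n ξ a‖ ^ 2 ≤ ∫ |a| ^ 2 dλ_n ≤ ‖a‖ ^ 2`; pass to the limit.
-/

open Filter Topology

namespace Pool.Agent.H6.Shai

/-- the finite index sets -/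
abbrev RadG (n : ℕ) : Type := (Fin n → Bool) → Bool

/-- restriction to the first `n` coordinates -/
def radRes (n : ℕ) (ξ : ℕ → Bool) : Fin n → Bool := fun i => ξ i

/-- Rademacher sign -/
def radS (𝕜 : Type) [RCLike 𝕜] (n : ℕ) (ξ : ℕ → Bool) (g : RadG n) : 𝕜 :=
  if g (radRes n ξ) then 1 else -1

section
variable {𝕜 : Type} [RCLike 𝕜] {n : ℕ} {ξ η : ℕ → Bool}

lemma radS_sq (g : RadG n) : radS 𝕜 n ξ g * radS 𝕜 n ξ g = 1 := by
  unfold radS
  split <;> simp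

lemma radS_norm (g : RadG n) : ‖radS 𝕜 n ξ g‖ = 1 := by
  unfold radS
  split <;> simp

lemma radS_conj (g : RadG n) : (starRingEnd 𝕜) (radS 𝕜 n ξ g) = radS 𝕜 n ξ g := by
  unfold radS
  split <;> simp

/-- flip a function at one place -/
def radFlip (n : ℕ) (x : Fin n → Bool) : RadG n ≃ RadG n where
  toFun g := Function.update g x (!g x)
  invFun g := Function.update g x (!g x)
  left_inv g := by
    funext y
    by_cases h : y = x
    · subst h
      simp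
    · simp [Function.update_of_ne h]
  right_inv g := by
    funext y
    by_cases h : y = x
    · subst h
      simp
    · simp [Function.update_of_ne h]

lemma radS_sum_eq_zero (h : radRes n ξ ≠ radRes n η) :
    ∑ g : RadG n, radS 𝕜 n ξ g * radS 𝕜 n η g = 0 := by
  have h1 : ∑ g : RadG n, radS 𝕜 n ξ g * radS 𝕜 n η g =
      - ∑ g : RadG n, radS 𝕜 n ξ g * radS 𝕜 n η g := by
    conv_lhs => rw [← Equiv.sum_comp (radFlip n (radRes n ξ))]
    rw [← Finset.sum_neg_distrib]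
    refine Finset.sum_congr rfl fun g _ => ?_
    have h2 : radS 𝕜 n ξ (radFlip n (radRes n ξ) g) = - radS 𝕜 n ξ g := by
      unfold radS radFlip
      rw [Equiv.coe_fn_mk, Function.update_self]
      cases g (radRes n ξ) <;> simp
    have h3 : radS 𝕜 n η (radFlip n (radRes n ξ) g) = radS 𝕜 n η g := by
      unfold radS radFlip
      rw [Equiv.coe_fn_mk, Function.update_of_ne (Ne.symm h)]
    rw [h2, h3, neg_mul]
  exact self_eq_neg.mp h1

lemma rad_countable : ∃ f : (Σ n, RadG n) → ℕ, Function.Injective f :=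
  Countable.exists_injective_nat _

/-- an encoding -/
noncomputable def radEnc : (Σ n, RadG n) → ℕ := rad_countable.choose

lemma radEnc_inj : Function.Injective radEnc := rad_countable.choose_spec

/-- the values of the Rademacher function -/
noncomputable def radF (𝕜 : Type) [RCLike 𝕜] (ξ : ℕ → Bool) : ℕ → 𝕜 :=
  Function.extend radEnc (fun q => radS 𝕜 q.1 ξ q.2) (fun _ => 0)

lemma radF_norm (k : ℕ) : ‖radF 𝕜 ξ k‖ ≤ 1 := by
  unfold radF
  by_cases h : ∃ q, radEnc q = k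
  · obtain ⟨q, rfl⟩ := h
    rw [radEnc_inj.extend_apply, radS_norm]
  · rw [Function.extend_apply' _ _ _ h, norm_zero]
    exact zero_le_one

/-- the Rademacher function -/
noncomputable def radR (𝕜 : Type) [RCLike 𝕜] (ξ : ℕ → Bool) : LI 𝕜 :=
  BoundedContinuousFunction.ofNormedAddCommGroupDiscrete (radF 𝕜 ξ) 1 radF_norm

lemma radR_enc (n : ℕ) (g : RadG n) : radR 𝕜 ξ (radEnc ⟨n, g⟩) = radS 𝕜 n ξ g := by
  show radF 𝕜 ξ (radEnc ⟨n, g⟩) = _
  unfold radF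
  rw [radEnc_inj.extend_apply]

/-- the averages -/
noncomputable def radL (n : ℕ) (ξ : ℕ → Bool) (a : LI 𝕜) : 𝕜 :=
  (Fintype.card (RadG n) : 𝕜)⁻¹ * ∑ g : RadG n, radS 𝕜 n ξ g * a (radEnc ⟨n, g⟩)

lemma radN_ne (n : ℕ) : (Fintype.card (RadG n) : 𝕜) ≠ 0 := by
  rw [Nat.cast_ne_zero]
  exact Fintype.card_ne_zero

lemma radL_self : radL n ξ (radR 𝕜 ξ) = 1 := by
  unfold radL
  have h : ∀ g : RadG n, radS 𝕜 n ξ g * radR 𝕜 ξ (radEnc ⟨n, g⟩) = 1 := by
    intro g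
    rw [radR_enc, radS_sq]
  simp_rw [h]
  rw [Finset.sum_const, Finset.card_univ, nsmul_eq_mul, mul_one]
  exact inv_mul_cancel₀ (radN_ne n)

lemma radL_ne (h : radRes n ξ ≠ radRes n η) : radL n ξ (radR 𝕜 η) = 0 := by
  unfold radL
  have h1 : ∀ g : RadG n, radS 𝕜 n ξ g * radR 𝕜 η (radEnc ⟨n, g⟩) =
      radS 𝕜 n ξ g * radS 𝕜 n η g := by
    intro g
    rw [radR_enc]
  simp_rw [h1]
  rw [radS_sum_eq_zero h, mul_zero]

lemma radL_add (a b : LI 𝕜) : radL n ξ (a + b) = radL n ξ a + radL n ξ b := by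
  unfold radL
  rw [← mul_add, ← Finset.sum_add_distrib]
  congr 1
  refine Finset.sum_congr rfl fun g _ => ?_
  rw [BoundedContinuousFunction.add_apply, mul_add]

lemma radL_smul (c : 𝕜) (a : LI 𝕜) : radL n ξ (c • a) = c * radL n ξ a := by
  have key : ∑ g : RadG n, radS 𝕜 n ξ g * (c • a) (radEnc ⟨n, g⟩) =
      c * ∑ g : RadG n, radS 𝕜 n ξ g * a (radEnc ⟨n, g⟩) := by
    rw [Finset.mul_sum]
    refine Finset.sum_congr rfl fun g _ => ?_
    have h : (c • a) (radEnc ⟨n, g⟩) = c * a (radEnc ⟨n, g⟩) := rfl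
    rw [h]
    ring
  unfold radL
  rw [key, mul_left_comm]

lemma radL_norm (a : LI 𝕜) : ‖radL n ξ a‖ ≤ ‖a‖ := by
  unfold radL
  rw [norm_mul, norm_inv, RCLike.norm_natCast]
  have h1 : ‖∑ g : RadG n, radS 𝕜 n ξ g * a (radEnc ⟨n, g⟩)‖ ≤ Fintype.card (RadG n) * ‖a‖ := by
    refine (norm_sum_le _ _).trans ?_
    rw [← Finset.card_univ, ← nsmul_eq_mul]
    refine Finset.sum_le_card_nsmul Finset.univ
      (fun g : RadG n => ‖radS 𝕜 n ξ g * a (radEnc ⟨n, g⟩)‖) ‖a‖ ?_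
    intro g _
    rw [norm_mul, radS_norm, one_mul]
    exact a.norm_coe_le_norm _
  have h2 : (0 : ℝ) < Fintype.card (RadG n) := by
    exact_mod_cast Fintype.card_pos
  rw [inv_mul_le_iff₀ h2]
  exact h1

/-- Bessel at a finite stage -/
lemma radL_bessel (a : LI 𝕜) (F : Finset (ℕ → Bool))
    (hF : ∀ ξ ∈ F, ∀ η ∈ F, ξ ≠ η → radRes n ξ ≠ radRes n η) :
    ∑ ξ ∈ F, ‖radL n ξ a‖ ^ 2 ≤ ‖a‖ ^ 2 := by
  classical
  set N : ℝ := (Fintype.card (RadG n) : ℝ) with hN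
  have hNpos : 0 < N := by
    rw [hN]
    exact_mod_cast Fintype.card_pos
  have hsq : Real.sqrt N * Real.sqrt N = N := Real.mul_self_sqrt hNpos.le
  have hspos : 0 < Real.sqrt N := Real.sqrt_pos.mpr hNpos
  set v : F → EuclideanSpace 𝕜 (RadG n) := fun ξ =>
    WithLp.toLp 2 (fun g => ((Real.sqrt N)⁻¹ : ℝ) * radS 𝕜 n ξ.1 g) with hv
  set x : EuclideanSpace 𝕜 (RadG n) := WithLp.toLp 2 (fun g => a (radEnc ⟨n, g⟩)) with hx
  have hinner : ∀ (ξ : F) (y : EuclideanSpace 𝕜 (RadG n)), inner 𝕜 (v ξ) y =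
      ((Real.sqrt N)⁻¹ : ℝ) * ∑ g, radS 𝕜 n ξ.1 g * y g := by
    intro ξ y
    rw [PiLp.inner_apply, Finset.mul_sum]
    refine Finset.sum_congr rfl fun g _ => ?_
    rw [hv]
    simp only [RCLike.inner_apply, map_mul, radS_conj, RCLike.conj_ofReal]
    ring
  have hcard : (Fintype.card (RadG n) : 𝕜) = ((N : ℝ) : 𝕜) := by
    rw [hN, RCLike.ofReal_natCast]
  have horth : Orthonormal 𝕜 v := by
    rw [orthonormal_iff_ite]
    intro ξ η
    rw [hinner]
    have h1 : ∀ g : RadG n, radS 𝕜 n ξ.1 g * v η g =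
        ((Real.sqrt N)⁻¹ : ℝ) * (radS 𝕜 n ξ.1 g * radS 𝕜 n η.1 g) := by
      intro g
      rw [hv]
      ring
    simp_rw [h1]
    rw [← Finset.mul_sum]
    by_cases h : ξ = η
    · subst h
      rw [if_pos rfl]
      simp_rw [radS_sq]
      rw [Finset.sum_const, Finset.card_univ, nsmul_eq_mul, mul_one, hcard, ← RCLike.ofReal_mul,
        ← RCLike.ofReal_mul]
      have : (Real.sqrt N)⁻¹ * ((Real.sqrt N)⁻¹ * N) = 1 := by
        rw [← mul_assoc, ← mul_inv, hsq, inv_mul_cancel₀ hNpos.ne']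
      rw [this, RCLike.ofReal_one]
    · rw [if_neg h]
      have hne : ξ.1 ≠ η.1 := fun h' => h (Subtype.ext h')
      rw [radS_sum_eq_zero (hF ξ.1 ξ.2 η.1 η.2 hne), mul_zero, mul_zero]
  have hb := horth.sum_inner_products_le x (s := Finset.univ)
  have h2 : ∀ ξ : F, ‖inner 𝕜 (v ξ) x‖ ^ 2 = N * ‖radL n ξ.1 a‖ ^ 2 := by
    intro ξ
    rw [hinner, radL, hcard, norm_mul, norm_mul, norm_inv, RCLike.norm_ofReal, RCLike.norm_ofReal,
      abs_of_pos hNpos, abs_of_pos (inv_pos.mpr hspos)]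
    have h3 : ∀ y : ℝ, ((Real.sqrt N)⁻¹ * y) ^ 2 = N * (N⁻¹ * y) ^ 2 := by
      intro y
      have : (Real.sqrt N)⁻¹ ^ 2 = N⁻¹ := by
        rw [inv_pow, Real.sq_sqrt hNpos.le]
      rw [mul_pow, mul_pow, this]
      field_simp
    exact h3 _
  simp_rw [h2] at hb
  rw [← Finset.mul_sum, Finset.sum_coe_sort F (fun ξ => ‖radL n ξ a‖ ^ 2)] at hb
  have h4 : ‖x‖ ^ 2 ≤ N * ‖a‖ ^ 2 := by
    rw [EuclideanSpace.norm_sq_eq, hN, ← Finset.card_univ, ← nsmul_eq_mul]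
    refine Finset.sum_le_card_nsmul Finset.univ (fun g : RadG n => ‖x g‖ ^ 2) (‖a‖ ^ 2) ?_
    intro g _
    rw [hx]
    exact pow_le_pow_left₀ (norm_nonneg _) (a.norm_coe_le_norm _) 2
  exact le_of_mul_le_mul_left (hb.trans h4) hNpos

end

lemma radRes_eventually {ξ η : ℕ → Bool} (h : ξ ≠ η) :
    ∀ᶠ n in (Filter.hyperfilter ℕ : Filter ℕ), radRes n ξ ≠ radRes n η := by
  obtain ⟨i, hi⟩ := Function.ne_iff.mp h
  have h1 : ∀ᶠ n in atTop, radRes n ξ ≠ radRes n η := by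
    filter_upwards [eventually_gt_atTop i] with n hn hcon
    exact hi (congrFun hcon ⟨i, hn⟩)
  rw [← Nat.cofinite_eq_atTop] at h1
  exact Filter.hyperfilter_le_cofinite h1

theorem exists_functionals (𝕜 : Type) [RCLike 𝕜] :
    ∃ (r : (ℕ → Bool) → LI 𝕜) (l : (ℕ → Bool) → (LI 𝕜 →L[𝕜] 𝕜)),
      (∀ ξ, l ξ (r ξ) = 1) ∧ (∀ ξ η, ξ ≠ η → l ξ (r η) = 0) ∧
      ∀ (a : LI 𝕜) (F : Finset (ℕ → Bool)), ∑ ξ ∈ F, ‖l ξ a‖ ^ 2 ≤ ‖a‖ ^ 2 := by
  have hlim : ∀ (ξ : ℕ → Bool) (a : LI 𝕜), ∃ y : 𝕜,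
      Tendsto (fun n => radL n ξ a) (Filter.hyperfilter ℕ : Filter ℕ) (𝓝 y) := by
    intro ξ a
    have hc : IsCompact (Metric.closedBall (0 : 𝕜) ‖a‖) := isCompact_closedBall _ _
    have h1 : ((Filter.hyperfilter ℕ).map (fun n => radL n ξ a) : Filter 𝕜) ≤
        𝓟 (Metric.closedBall (0 : 𝕜) ‖a‖) := by
      rw [Ultrafilter.coe_map, le_principal_iff]
      refine Filter.mem_map.mpr (Filter.univ_mem' fun n => ?_)
      rw [Set.mem_preimage, mem_closedBall_zero_iff]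
      exact radL_norm a
    obtain ⟨y, _, hy⟩ := hc.ultrafilter_le_nhds _ h1
    exact ⟨y, hy⟩
  choose L hL using hlim
  have hadd : ∀ ξ a b, L ξ (a + b) = L ξ a + L ξ b := by
    intro ξ a b
    apply tendsto_nhds_unique (hL ξ (a + b))
    simp_rw [radL_add]
    exact (hL ξ a).add (hL ξ b)
  have hsmul : ∀ ξ (c : 𝕜) a, L ξ (c • a) = c • L ξ a := by
    intro ξ c a
    apply tendsto_nhds_unique (hL ξ (c • a))
    simp_rw [radL_smul]
    exact (hL ξ a).const_mul c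
  have hnorm : ∀ ξ a, ‖L ξ a‖ ≤ 1 * ‖a‖ := by
    intro ξ a
    rw [one_mul]
    exact le_of_tendsto (hL ξ a).norm (Eventually.of_forall fun n => radL_norm a)
  refine ⟨radR 𝕜, fun ξ => LinearMap.mkContinuous
    { toFun := L ξ, map_add' := hadd ξ, map_smul' := hsmul ξ } 1 (hnorm ξ), ?_, ?_, ?_⟩
  · intro ξ
    change L ξ (radR 𝕜 ξ) = 1
    apply tendsto_nhds_unique (hL ξ (radR 𝕜 ξ))
    simp_rw [radL_self]
    exact tendsto_const_nhds
  · intro ξ η h
    change L ξ (radR 𝕜 η) = 0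
    apply tendsto_nhds_unique (hL ξ (radR 𝕜 η))
    apply tendsto_const_nhds.congr'
    filter_upwards [radRes_eventually h] with n hn
    exact (radL_ne hn).symm
  · intro a F
    change ∑ ξ ∈ F, ‖L ξ a‖ ^ 2 ≤ ‖a‖ ^ 2
    have h1 : Tendsto (fun n => ∑ ξ ∈ F, ‖radL n ξ a‖ ^ 2) (Filter.hyperfilter ℕ : Filter ℕ)
        (𝓝 (∑ ξ ∈ F, ‖L ξ a‖ ^ 2)) :=
      tendsto_finsetSum _ fun ξ _ => ((hL ξ a).norm.pow 2)
    apply le_of_tendsto h1
    have h2 : ∀ᶠ n in (Filter.hyperfilter ℕ : Filter ℕ), ∀ ξ ∈ F, ∀ η ∈ F, ξ ≠ η →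
        radRes n ξ ≠ radRes n η := by
      rw [Filter.eventually_all_finset]
      intro ξ _
      rw [Filter.eventually_all_finset]
      intro η _
      by_cases h : ξ = η
      · exact Eventually.of_forall fun n h' => absurd h h'
      · filter_upwards [radRes_eventually h] with n hn _
        exact hn
    filter_upwards [h2] with n hn
    exact radL_bessel a F hn

end Pool.Agent.H6.Shai
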