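import Pool.Agent.H6.Shai.Hom

/-!
# Sums of rank one operators with disjoint ranges

Proof (paper).
* `exists_sumOp` : for a finite set `F` of indices the `y i` (`i ∈ F`) have disjoint carriers: with
  `C_{ij}` (`i ≠ j`) from `hy`, `Φ (P C_{ij}) (y i) = y i`, `Φ (P C_{ij}) (y j) = 0`; order `F`
  linearly (e.g. by `Finset` induction or by an enumeration) and put
  `C_i = ⋂_{j > i} C_{ij} ∩ ⋂_{j < i} (C_{ji})ᶜ`; these are disjoint and
  `Φ (P C_i) (y i) = y i` (`map_comp`, `P_comp_P`, `P_compl`).  So by `upper`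
  `‖∑_{i ∈ F} c i • y i‖ ≤ M * max_{i ∈ F} ‖c i‖`.  For `z : Y` and `ε > 0` only finitely many `i`
  have `‖w i z‖ ≥ ε` (`hw`), so `i ↦ w i z • y i` satisfies the Cauchy criterion
  (`summable_iff_vanishing_norm`), hence is summable; define `B z` as the sum (`tsum`); it is linear
  and `‖B z‖ ≤ M * c * ‖z‖` (each `‖w i z‖ ≤ c ‖z‖`), so it is a bounded operator.
-/

open Filter Topology

namespace Pool.Agent.H6.Shai

universe u

variable {𝕜 : Type} [RCLike 𝕜] {Y : Type u} [NormedAddCommGroup Y] [NormedSpace 𝕜 Y]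

lemma sumOp_inter (H : Hom 𝕜 Y) (C D : Set ℕ) (y : Y) :
    H.Φ (P (C ∩ D)) y = H.Φ (P C) (H.Φ (P D) y) := by
  rw [← P_comp_P, H.map_comp]
  rfl

lemma sumOp_compl (H : Hom 𝕜 Y) (C : Set ℕ) (y : Y) :
    H.Φ (P Cᶜ) y = y - H.Φ (P C) y := by
  have h1 : H.Φ (P C) y + H.Φ (P Cᶜ) y = y := by
    rw [← add_apply, ← map_add, P_compl, H.map_id]
    rfl
  rw [eq_sub_iff_add_eq, add_comm]
  exact h1

lemma sumOp_biInter {ι : Type} (H : Hom 𝕜 Y) (v : Y) (C : ι → Set ℕ) (F : Finset ι)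
    (h : ∀ i ∈ F, H.Φ (P (C i)) v = v) : H.Φ (P (⋂ i ∈ F, C i)) v = v := by
  classical
  induction F using Finset.induction_on with
  | empty =>
    simp only [Finset.notMem_empty, Set.iInter_of_empty, Set.iInter_univ]
    rw [P_univ, H.map_id]
    rfl
  | insert a s ha ih =>
    rw [Finset.set_biInter_insert, sumOp_inter, ih (fun i hi => h i (Finset.mem_insert_of_mem hi)),
      h a (Finset.mem_insert_self a s)]

lemma sumOp_disjoint {ι : Type} (H : Hom 𝕜 Y) (y : ι → Y)
    (hy : ∀ i j, i ≠ j → ∃ C : Set ℕ, H.Φ (P C) (y i) = y i ∧ H.Φ (P C) (y j) = 0)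
    (F : Finset ι) : ∃ C : ι → Set ℕ, (∀ i ∈ F, H.Φ (P (C i)) (y i) = y i) ∧
      ∀ i ∈ F, ∀ j ∈ F, i ≠ j → Disjoint (C i) (C j) := by
  classical
  induction F using Finset.induction_on with
  | empty => exact ⟨fun _ => ∅, by simp, by simp⟩
  | insert a s ha ih =>
    obtain ⟨C, hC1, hC2⟩ := ih
    have hne : ∀ i ∈ s, a ≠ i := fun i hi h => ha (h ▸ hi)
    have h1 : ∀ i, a ≠ i → ∃ E : Set ℕ, H.Φ (P E) (y a) = y a ∧ H.Φ (P E) (y i) = 0 :=
      fun i hi => hy a i hi
    choose! E hE1 hE2 using h1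
    refine ⟨fun i => if i = a then ⋂ j ∈ s, E j else C i ∩ (E i)ᶜ, ?_, ?_⟩
    · intro i hi
      rcases Finset.mem_insert.1 hi with rfl | hi
      · simp only [if_true]
        exact sumOp_biInter H _ E s (fun j hj => hE1 j (hne j hj))
      · have hia : i ≠ a := (hne i hi).symm
        simp only [hia, if_false]
        rw [sumOp_inter, sumOp_compl, hE2 i (hne i hi), sub_zero, hC1 i hi]
    · intro i hi j hj hij
      rcases Finset.mem_insert.1 hi with rfl | hi
      · rcases Finset.mem_insert.1 hj with rfl | hj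
        · exact absurd rfl hij
        · have hji : j ≠ i := hij.symm
          simp only [if_true, hji, if_false]
          rw [Set.disjoint_left]
          intro n hn hn2
          exact hn2.2 (Set.mem_iInter₂.1 hn j hj)
      · have hia : i ≠ a := (hne i hi).symm
        have his : i ∈ s := hi
        rcases Finset.mem_insert.1 hj with rfl | hj
        · simp only [if_true, hia, if_false]
          rw [Set.disjoint_left]
          intro n hn hn2
          exact hn.2 (Set.mem_iInter₂.1 hn2 i his)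
        · have hja : j ≠ a := (hne j hj).symm
          simp only [hia, hja, if_false]
          exact (hC2 i hi j hj hij).mono Set.inter_subset_left Set.inter_subset_left

theorem exists_sumOp [CompleteSpace Y] [Nontrivial Y] (H : Hom 𝕜 Y) (y : (ℕ → Bool) → Y)
    (hy1 : ∀ i, ‖y i‖ ≤ 1)
    (hy : ∀ i j, i ≠ j → ∃ C : Set ℕ, H.Φ (P C) (y i) = y i ∧ H.Φ (P C) (y j) = 0)
    (w : (ℕ → Bool) → (Y →L[𝕜] 𝕜)) (c : ℝ) (hc : 0 ≤ c)
    (hw : ∀ (z : Y) (F : Finset (ℕ → Bool)), ∑ i ∈ F, ‖w i z‖ ^ 2 ≤ (c * ‖z‖) ^ 2) :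
    ∃ B : Y →L[𝕜] Y, ∀ z, HasSum (fun i => w i z • y i) (B z) := by
  classical
  obtain ⟨M, hM, hup⟩ := H.upper
  have hbd : ∀ (z : Y) (F : Finset (ℕ → Bool)) (b : ℝ), 0 ≤ b → (∀ i ∈ F, ‖w i z‖ ≤ b) →
      ‖∑ i ∈ F, w i z • y i‖ ≤ M * b := by
    intro z F b hb h
    obtain ⟨C, hC1, hC2⟩ := sumOp_disjoint H y hy F
    refine hup _ F C hC2 (fun i => w i z • y i) ?_ b hb ?_
    · intro i hi
      rw [map_smul, hC1 i hi]
    · intro i hi
      rw [norm_smul]
      calc ‖w i z‖ * ‖y i‖ ≤ b * 1 :=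
            mul_le_mul (h i hi) (hy1 i) (norm_nonneg _) hb
        _ = b := mul_one b
  have hwb : ∀ z i, ‖w i z‖ ≤ c * ‖z‖ := by
    intro z i
    have h1 := hw z {i}
    rw [Finset.sum_singleton] at h1
    exact (pow_le_pow_iff_left₀ (norm_nonneg _) (mul_nonneg hc (norm_nonneg _)) two_ne_zero).1 h1
  have hsum : ∀ z, Summable (fun i => w i z • y i) := by
    intro z
    rw [summable_iff_vanishing_norm]
    intro ε hε
    have h2 : Summable (fun i => ‖w i z‖ ^ 2) :=
      summable_of_sum_le (fun i => by positivity) (hw z)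
    have h3 := h2.tendsto_cofinite_zero
    have hδ : 0 < ε / (2 * M) := by positivity
    have h4 : ∀ᶠ i in cofinite, ‖w i z‖ ^ 2 < (ε / (2 * M)) ^ 2 :=
      h3.eventually_lt_const (by positivity)
    have h5 : {i | ¬ ‖w i z‖ ^ 2 < (ε / (2 * M)) ^ 2}.Finite := h4
    refine ⟨h5.toFinset, fun t ht => ?_⟩
    have h6 : ‖∑ i ∈ t, w i z • y i‖ ≤ M * (ε / (2 * M)) := by
      apply hbd z t _ hδ.le
      intro i hi
      have h7 : ‖w i z‖ ^ 2 < (ε / (2 * M)) ^ 2 := by
        by_contra h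
        exact Finset.disjoint_left.1 ht hi (h5.mem_toFinset.2 h)
      exact ((pow_lt_pow_iff_left₀ (norm_nonneg _) hδ.le two_ne_zero).1 h7).le
    have h8 : M * (ε / (2 * M)) = ε / 2 := by
      field_simp
    rw [h8] at h6
    linarith
  refine ⟨LinearMap.mkContinuous
    { toFun := fun z => ∑' i, w i z • y i
      map_add' := fun z z' => by
        rw [← (hsum z).tsum_add (hsum z')]
        exact tsum_congr fun i => by rw [map_add, add_smul]
      map_smul' := fun a z => by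
        rw [RingHom.id_apply, ← (hsum z).tsum_const_smul a]
        exact tsum_congr fun i => by rw [map_smul, smul_eq_mul, mul_smul] } (M * c) ?_, ?_⟩
  · intro z
    change ‖∑' i, w i z • y i‖ ≤ M * c * ‖z‖
    refine le_of_tendsto (hsum z).hasSum.norm (Eventually.of_forall fun F => ?_)
    rw [mul_assoc]
    exact hbd z F _ (mul_nonneg hc (norm_nonneg _)) (fun i _ => hwb z i)
  · intro z
    exact (hsum z).hasSum

end Pool.Agent.H6.Shai
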