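import Pool.Agent.H6.Shai.Auto
import Pool.Agent.H6.Shai.ErMem
import Pool.Agent.H6.Shai.DR
import Pool.Agent.H6.Shai.Family
import Pool.Agent.H6.Shai.SumOp
import Pool.Agent.H6.Shai.Rad

/-!
# `C(ℕ*)` has the SHAI property
-/

open Filter Topology

namespace Pool.Agent.H6.Shai

universe u

variable {𝕜 : Type} [RCLike 𝕜] {Y : Type u} [NormedAddCommGroup Y] [NormedSpace 𝕜 Y]

/-- the functionals `w₀ ∘ Φ (V n)` as an operator into `ℓ_∞` -/
noncomputable def Hom.W (H : Hom 𝕜 Y) (w₀ : Y →L[𝕜] 𝕜) : Y →L[𝕜] LI 𝕜 :=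
  LinearMap.mkContinuous
    { toFun := fun z => BoundedContinuousFunction.ofNormedAddCommGroupDiscrete
        (fun n => w₀ (H.Φ (V n) z)) (‖w₀‖ * (‖H.Φ‖ * ‖z‖)) (fun n => by
          refine (w₀.le_opNorm _).trans (mul_le_mul_of_nonneg_left ?_ (norm_nonneg _))
          refine ((H.Φ (V n)).le_opNorm z).trans (mul_le_mul_of_nonneg_right ?_ (norm_nonneg _))
          refine (H.Φ.le_opNorm _).trans ?_
          have := mul_le_mul_of_nonneg_left (norm_V_le (𝕜 := 𝕜) n)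
            (ContinuousLinearMap.opNorm_nonneg H.Φ)
          simpa using this)
      map_add' := fun z z' => by
        ext n
        simp
      map_smul' := fun c z => by
        ext n
        simp } (‖w₀‖ * ‖H.Φ‖) (fun z => by
    refine (BoundedContinuousFunction.norm_le (mul_nonneg (mul_nonneg (norm_nonneg _)
      (ContinuousLinearMap.opNorm_nonneg H.Φ)) (norm_nonneg _))).2 fun n => ?_
    rw [mul_assoc]
    refine (w₀.le_opNorm _).trans (mul_le_mul_of_nonneg_left ?_ (norm_nonneg _))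
    refine ((H.Φ (V n)).le_opNorm z).trans (mul_le_mul_of_nonneg_right ?_ (norm_nonneg _))
    refine (H.Φ.le_opNorm _).trans ?_
    have := mul_le_mul_of_nonneg_left (norm_V_le (𝕜 := 𝕜) n)
      (ContinuousLinearMap.opNorm_nonneg H.Φ)
    simpa using this)

@[simp] lemma Hom.W_apply (H : Hom 𝕜 Y) (w₀ : Y →L[𝕜] 𝕜) (z : Y) (n : ℕ) :
    H.W w₀ z n = w₀ (H.Φ (V n) z) := rfl

lemma Hom.norm_W_le (H : Hom 𝕜 Y) (w₀ : Y →L[𝕜] 𝕜) (z : Y) :
    ‖H.W w₀ z‖ ≤ ‖w₀‖ * ‖H.Φ‖ * ‖z‖ :=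
  (H.W w₀).le_of_opNorm_le (LinearMap.mkContinuous_norm_le _ (mul_nonneg (norm_nonneg _)
    (ContinuousLinearMap.opNorm_nonneg H.Φ)) _) z

theorem no_hom [CompleteSpace Y] [Nontrivial Y] (H : Hom 𝕜 Y) : False := by
  obtain ⟨u, y₀, w₀, h1, hw⟩ := H.exists_point
  have hEr := Er_mem H u
  obtain ⟨y, hy1, hy2, hy3⟩ := exists_family H
  obtain ⟨r', l, hl1, hl2, hl3⟩ := exists_functionals 𝕜
  have hw1 : ∀ C : Set ℕ, C ∈ u.1 → ∀ z, w₀ (H.Φ (P C) z) = w₀ z := by
    intro C hC z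
    have e1 := congrArg w₀ (H.map_P_add_compl C z)
    rw [map_add, hw Cᶜ (fun h => Ultrafilter.compl_mem_iff_notMem.1 h hC) z, add_zero] at e1
    exact e1
  obtain ⟨B, hB⟩ := exists_sumOp H y hy1 hy2 (fun i => l i ∘L H.W w₀) (‖w₀‖ * ‖H.Φ‖)
    (mul_nonneg (norm_nonneg _) (ContinuousLinearMap.opNorm_nonneg H.Φ)) (by
      intro z F
      refine (hl3 (H.W w₀ z) F).trans ?_
      exact pow_le_pow_left₀ (norm_nonneg _) (H.norm_W_le w₀ z) 2)
  have hBC : ∀ C : Set ℕ, (∀ n, C ∈ (un u n).1) → B ∘L H.Φ (P C) = B := by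
    intro C hC
    ext z
    rw [ContinuousLinearMap.comp_apply]
    refine (hB (H.Φ (P C) z)).unique ?_
    have : H.W w₀ (H.Φ (P C) z) = H.W w₀ z := by
      ext n
      rw [H.W_apply, H.W_apply, ← H.map_comp_apply, V_comp_P, H.map_comp_apply]
      exact hw1 _ (mem_push.1 (hC n)) _
    have h2 := hB z
    simp only [ContinuousLinearMap.comp_apply, this] at h2 ⊢
    exact h2
  obtain ⟨D, -, hDinf, hDB⟩ := drewnowskiRoberts H u hEr B hBC Set.univ Set.infinite_univ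
  obtain ⟨i, hi⟩ := hy3 D hDinf
  have hWz : H.W w₀ (H.Φ (M (r' i) ∘L R) y₀) = r' i := by
    ext n
    rw [H.W_apply, ← H.map_comp_apply, V_comp_M_comp_R, map_smul, smul_apply, H.map_id_apply,
      map_smul, h1, smul_eq_mul, mul_one]
  have hBz : B (H.Φ (M (r' i) ∘L R) y₀) = y i := by
    refine (hB _).unique ?_
    simp only [ContinuousLinearMap.comp_apply, hWz]
    have h3 := hasSum_single (f := fun j => l j (r' i) • y j) i (fun j hj => by
      rw [hl2 j i hj, zero_smul])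
    rw [hl1 i, one_smul] at h3
    exact h3
  have h4 := congrArg (fun S => S (H.Φ (M (r' i) ∘L R) y₀)) hDB
  simp only [ContinuousLinearMap.comp_apply, hBz] at h4
  exact hi h4

theorem shai_NU (𝕜 : Type) [RCLike 𝕜] : SHAI.{u} 𝕜 C(NU, 𝕜) := by
  intro Y _ _ _ _ φ hφ
  by_contra hinj
  have hc := continuous_of_surjective φ hφ
  obtain ⟨A, hA0, hA⟩ : ∃ A, A ≠ 0 ∧ φ A = 0 := by
    simp only [Function.Injective] at hinj
    push Not at hinj
    obtain ⟨a, b, hab, hne⟩ := hinj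
    exact ⟨a - b, sub_ne_zero.2 hne, by rw [map_sub, hab, sub_self]⟩
  exact no_hom (Y := Y) (𝕜 := 𝕜)
    { Φ :=
        { toFun := φ
          map_add' := map_add φ
          map_smul' := map_smul φ
          cont := hc }
      map_comp := fun A B => map_mul φ A B
      surj := hφ
      ker := ⟨A, hA0, hA⟩ }

end Pool.Agent.H6.Shai
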