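import Pool.Agent.H6.Shai.Defs

/-!
# Transfer to the Stone–Čech compactification

Proofs (paper).
* `shai_congr` : conjugation by `e` is an algebra isomorphism between the operator algebras.
* `remHomeo` : `Ultrafilter.extend stoneCechUnit : Ultrafilter ℕ → StoneCech ℕ` and
  `stoneCechExtend (g := pure)` (continuous as `ℕ` is discrete) are inverse to each other: both
  composites are continuous and are the identity on the dense range of `pure`, `stoneCechUnit`.
  Principal ultrafilters correspond to the points `stoneCechUnit n`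
  (`Ultrafilter.le_cofinite_or_eq_pure`, and `pure n` is not `≤ cofinite`).
-/

namespace Pool.Agent.H6.Shai

universe u

theorem shai_congr {𝕜 : Type} [RCLike 𝕜] {X X' : Type} [NormedAddCommGroup X] [NormedSpace 𝕜 X]
    [NormedAddCommGroup X'] [NormedSpace 𝕜 X'] (e : X ≃L[𝕜] X') (h : SHAI.{u} 𝕜 X) :
    SHAI.{u} 𝕜 X' := by
  intro Y _ _ _ _ φ hφ
  let c : (X →L[𝕜] X) →ₙₐ[𝕜] (X' →L[𝕜] X') :=
    { toFun := fun T => ((e : X →L[𝕜] X') ∘L T) ∘L (e.symm : X' →L[𝕜] X)
      map_smul' := fun a T => by
        ext x
        simp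
      map_zero' := by
        ext x
        simp
      map_add' := fun S T => by
        ext x
        simp
      map_mul' := fun S T => by
        ext x
        simp }
  have hc : ∀ T : X' →L[𝕜] X', c (((e.symm : X' →L[𝕜] X) ∘L T) ∘L (e : X →L[𝕜] X')) = T := by
    intro T
    ext x
    change e (e.symm (T (e (e.symm x)))) = T x
    rw [e.apply_symm_apply, e.apply_symm_apply]
  have hinj := h Y (φ.comp c) (by
    intro T
    obtain ⟨S, rfl⟩ := hφ T
    exact ⟨((e.symm : X' →L[𝕜] X) ∘L S) ∘L (e : X →L[𝕜] X'), by
      rw [NonUnitalAlgHom.comp_apply, hc]⟩)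
  intro T T' hTT
  have h1 : φ.comp c (((e.symm : X' →L[𝕜] X) ∘L T) ∘L (e : X →L[𝕜] X')) =
      φ.comp c (((e.symm : X' →L[𝕜] X) ∘L T') ∘L (e : X →L[𝕜] X')) := by
    rw [NonUnitalAlgHom.comp_apply, NonUnitalAlgHom.comp_apply, hc, hc, hTT]
  have h2 := hinj h1
  rw [← hc T, ← hc T', h2]

/-- The remainder `βℕ \ ℕ` of the Stone–Čech compactification of the discrete space `ℕ`. -/
abbrev Remainder : Type := {x : StoneCech ℕ // x ∉ Set.range (stoneCechUnit : ℕ → StoneCech ℕ)}

/-- `βℕ \ ℕ` is homeomorphic to the space of nonprincipal ultrafilters. -/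
theorem remHomeo : Nonempty (NU ≃ₜ Remainder) := by
  have hg : Continuous (pure : ℕ → Ultrafilter ℕ) := continuous_of_discreteTopology
  have hF : Continuous (Ultrafilter.extend (stoneCechUnit : ℕ → StoneCech ℕ)) :=
    continuous_ultrafilter_extend _
  have hG : Continuous (stoneCechExtend hg) := continuous_stoneCechExtend hg
  have h1 : ∀ u : Ultrafilter ℕ,
      stoneCechExtend hg (Ultrafilter.extend (stoneCechUnit : ℕ → StoneCech ℕ) u) = u := by
    intro u
    have := (denseRange_pure (α := ℕ)).equalizer (hG.comp hF) continuous_id (by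
      funext n
      simp only [Function.comp_apply, id_eq]
      rw [ultrafilter_extend_pure, stoneCechExtend_stoneCechUnit])
    exact congrFun this u
  have h2 : ∀ x : StoneCech ℕ,
      Ultrafilter.extend (stoneCechUnit : ℕ → StoneCech ℕ) (stoneCechExtend hg x) = x := by
    intro x
    have := (denseRange_stoneCechUnit (α := ℕ)).equalizer (hF.comp hG) continuous_id (by
      funext n
      simp only [Function.comp_apply, id_eq]
      rw [stoneCechExtend_stoneCechUnit, ultrafilter_extend_pure])
    exact congrFun this x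
  let H : Ultrafilter ℕ ≃ₜ StoneCech ℕ :=
    { toFun := Ultrafilter.extend (stoneCechUnit : ℕ → StoneCech ℕ)
      invFun := stoneCechExtend hg
      left_inv := h1
      right_inv := h2
      continuous_toFun := hF
      continuous_invFun := hG }
  refine ⟨H.subtype fun u => ?_⟩
  change (u : Filter ℕ) ≤ Filter.cofinite ↔
    Ultrafilter.extend (stoneCechUnit : ℕ → StoneCech ℕ) u ∉ Set.range stoneCechUnit
  constructor
  · rintro hu ⟨n, hn⟩
    have h3 : u = pure n := by
      rw [← h1 u, ← hn, stoneCechExtend_stoneCechUnit]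
    subst h3
    have h4 : ({n}ᶜ : Set ℕ) ∈ ((pure n : Ultrafilter ℕ) : Filter ℕ) := hu (by simp)
    exact absurd h4 (by simp)
  · intro hu
    rcases Ultrafilter.le_cofinite_or_eq_pure u with h' | ⟨n, rfl⟩
    · exact h'
    · exact absurd ⟨n, (ultrafilter_extend_pure _ n).symm⟩ hu

instance : CompactSpace Remainder := by
  obtain ⟨e⟩ := remHomeo
  exact e.compactSpace

theorem shai_remainder (𝕜 : Type) [RCLike 𝕜] (h : SHAI.{u} 𝕜 C(NU, 𝕜)) :
    SHAI.{u} 𝕜 C(Remainder, 𝕜) := by
  obtain ⟨e⟩ := remHomeo
  let L : C(NU, 𝕜) ≃L[𝕜] C(Remainder, 𝕜) :=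
    { toFun := fun f => f.comp ⟨e.symm, e.symm.continuous⟩
      invFun := fun f => f.comp ⟨e, e.continuous⟩
      map_add' := fun f g => rfl
      map_smul' := fun a f => rfl
      left_inv := fun f => by
        ext x
        change f (e.symm (e x)) = f x
        rw [e.symm_apply_apply]
      right_inv := fun f => by
        ext x
        change f (e (e.symm x)) = f x
        rw [e.apply_symm_apply]
      continuous_toFun := ContinuousMap.continuous_precomp _
      continuous_invFun := ContinuousMap.continuous_precomp _ }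
  exact shai_congr L h

end Pool.Agent.H6.Shai
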